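import Mathlib

set_option autoImplicit false
set_option linter.unusedSectionVars false

namespace Pool.Agent.Helper889.QC

open Filter Topology

/-- a family of disjoint closed intervals `[x n - ρ n, x n + ρ n]` in `(0,∞)` with dense union -/
structure Cfg where
  x : ℕ → ℝ
  ρ : ℕ → ℝ
  pos : ∀ n, 0 < ρ n
  lt3 : ∀ n, 3 * ρ n < x n
  disj : ∀ m n, m ≠ n → ρ m + ρ n < |x m - x n|
  dense : ∀ a b, 0 < a → a < b → ∃ n, ∃ y, a < y ∧ y < b ∧ |y - x n| ≤ ρ n
  tend : Tendsto ρ atTop (𝓝 0)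

/-- the requirements on the next pair -/
def Good (ηn : ℝ) (U : Set ℝ) (l : List (ℝ × ℝ)) (q : ℝ × ℝ) : Prop :=
  0 < q.2 ∧ 3 * q.2 < q.1 ∧ q.2 ≤ ηn ∧ (∀ p ∈ l, 0 < |q.1 - p.1| - p.2 ∧ q.2 ≤ ηn * (|q.1 - p.1| - p.2)) ∧
    ((∃ y ∈ U, 0 < y ∧ ∀ p ∈ l, p.2 < |y - p.1|) → q.1 ∈ U)

theorem exists_Good {ηn : ℝ} (hη : 0 < ηn) (U : Set ℝ) (l : List (ℝ × ℝ)) : ∃ q, Good ηn U l q := by
  -- a point outside all intervals
  have hfar : ∀ l : List (ℝ × ℝ), ∃ B : ℝ, 0 < B ∧ ∀ p ∈ l, ∀ y, B ≤ y → p.2 < |y - p.1| := by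
    intro l
    induction l with
    | nil => exact ⟨1, one_pos, fun p hp => by simp at hp⟩
    | cons a l ih =>
      obtain ⟨B, hB, h⟩ := ih
      refine ⟨B + |a.1| + |a.2| + 1, by positivity, fun p hp y hy => ?_⟩
      rcases List.mem_cons.1 hp with rfl | hp'
      · have h1 := le_abs_self p.1
        have h2 := le_abs_self p.2
        have h3 := le_abs_self (y - p.1)
        linarith
      · exact h p hp' y (by linarith [abs_nonneg a.1, abs_nonneg a.2])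
  obtain ⟨y, hy0, hyl, hyU⟩ : ∃ y : ℝ, 0 < y ∧ (∀ p ∈ l, p.2 < |y - p.1|) ∧
      ((∃ y ∈ U, 0 < y ∧ ∀ p ∈ l, p.2 < |y - p.1|) → y ∈ U) := by
    by_cases h : ∃ y ∈ U, 0 < y ∧ ∀ p ∈ l, p.2 < |y - p.1|
    · obtain ⟨y, h1, h2, h3⟩ := h
      exact ⟨y, h2, h3, fun _ => h1⟩
    · obtain ⟨B, hB, h'⟩ := hfar l
      exact ⟨B, hB, fun p hp => h' p hp B le_rfl, fun hc => absurd hc h⟩
  have hm : ∀ l : List (ℝ × ℝ), (∀ p ∈ l, p.2 < |y - p.1|) → ∃ m > 0, ∀ p ∈ l, m ≤ |y - p.1| - p.2 := by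
    intro l
    induction l with
    | nil => intro _; exact ⟨1, one_pos, fun p hp => by simp at hp⟩
    | cons a l ih =>
      intro h
      obtain ⟨m, hm, h'⟩ := ih fun p hp => h p (List.mem_cons_of_mem _ hp)
      have ha : a.2 < |y - a.1| := h a (List.mem_cons_self)
      refine ⟨min m (|y - a.1| - a.2), lt_min hm (sub_pos.2 ha), fun p hp => ?_⟩
      rcases List.mem_cons.1 hp with rfl | hp'
      · exact min_le_right _ _
      · exact (min_le_left _ _).trans (h' p hp')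
  obtain ⟨m, hm0, hm⟩ := hm l hyl
  refine ⟨(y, min (min (y / 4) ηn) (ηn * m)), ?_, ?_, ?_, ?_, hyU⟩
  · have : 0 < y / 4 := by linarith
    positivity
  · have h1 : min (min (y / 4) ηn) (ηn * m) ≤ y / 4 := (min_le_left _ _).trans (min_le_left _ _)
    simp only; linarith
  · exact (min_le_left _ _).trans (min_le_right _ _)
  · intro p hp
    refine ⟨sub_pos.2 (hyl p hp), ?_⟩
    simp only
    calc min (min (y / 4) ηn) (ηn * m) ≤ ηn * m := min_le_right _ _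
      _ ≤ _ := by gcongr; exact hm p hp

/-- enumeration of rational intervals -/
theorem exists_U : ∃ U : ℕ → Set ℝ, (∀ n, IsOpen (U n)) ∧ (∀ a b : ℝ, a < b → ∃ n, U n ⊆ Set.Ioo a b ∧ (U n).Nonempty) := by
  obtain ⟨f, hf⟩ := exists_surjective_nat (ℚ × ℚ)
  refine ⟨fun n => Set.Ioo ((f n).1 : ℝ) ((f n).2 : ℝ), fun n => isOpen_Ioo, fun a b hab => ?_⟩
  obtain ⟨q1, h1, h2⟩ := exists_rat_btwn hab
  obtain ⟨q2, h3, h4⟩ := exists_rat_btwn h2
  obtain ⟨n, hn⟩ := hf (q1, q2)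
  refine ⟨n, ?_, ?_⟩
  · simp only [hn]; exact Set.Ioo_subset_Ioo h1.le h4.le
  · simp only [hn]; exact Set.nonempty_Ioo.2 h3

section
variable (η : ℕ → ℝ) (hη : ∀ n, 0 < η n) (U : ℕ → Set ℝ)

/-- the next pair -/
noncomputable def pick (n : ℕ) (l : List (ℝ × ℝ)) : ℝ × ℝ := (exists_Good (hη n) (U n) l).choose

theorem pick_spec (n : ℕ) (l : List (ℝ × ℝ)) : Good (η n) (U n) l (pick η hη U n l) :=
  (exists_Good (hη n) (U n) l).choose_spec

/-- the list of the first pairs -/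
noncomputable def lst : ℕ → List (ℝ × ℝ)
  | 0 => [(2, 1/4), (1, 1/4)]
  | (n+1) => pick η hη U n (lst n) :: lst n

/-- the sequence -/
noncomputable def sq : ℕ → ℝ × ℝ
  | 0 => (1, 1/4)
  | 1 => (2, 1/4)
  | (n+2) => pick η hη U n (lst η hη U n)

theorem mem_lst (k n : ℕ) (h : k < n + 2) : sq η hη U k ∈ lst η hη U n := by
  induction n with
  | zero =>
    interval_cases k
    · simp [sq, lst]
    · simp [sq, lst]
  | succ n ih =>
    rcases Nat.lt_succ_iff_lt_or_eq.1 h with h' | h'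
    · exact List.mem_cons_of_mem _ (ih h')
    · rw [h']
      exact List.mem_cons_self

theorem lst_sub (n : ℕ) (p : ℝ × ℝ) (h : p ∈ lst η hη U n) : ∃ k, k < n + 2 ∧ p = sq η hη U k := by
  induction n with
  | zero =>
    simp only [lst, List.mem_cons, List.not_mem_nil, or_false] at h
    rcases h with h | h
    · exact ⟨1, by norm_num, h⟩
    · exact ⟨0, by norm_num, h⟩
  | succ n ih =>
    rcases List.mem_cons.1 h with h' | h'
    · exact ⟨n + 2, by omega, h'⟩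
    · obtain ⟨k, hk, e⟩ := ih h'
      exact ⟨k, by omega, e⟩
end

/-- existence of configurations with prescribed smallness -/
theorem exists_cfg (η : ℕ → ℝ) (hη : ∀ n, 0 < η n) (hη2 : ∀ n, η n ≤ 1/2) (hη3 : Tendsto η atTop (𝓝 0)) :
    ∃ C : Cfg, C.x 0 = 1 ∧ C.x 1 = 2 ∧ C.ρ 0 = 1/4 ∧ C.ρ 1 = 1/4 ∧ (∀ n, C.ρ (n+2) ≤ η n) ∧
      ∀ k n, k < n + 2 → C.ρ (n+2) ≤ η n * (|C.x (n+2) - C.x k| - C.ρ k) := by
  obtain ⟨U, hUo, hU⟩ := exists_U
  set s := sq η hη U with hs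
  have hG : ∀ n, Good (η n) (U n) (lst η hη U n) (s (n+2)) := fun n => pick_spec η hη U n _
  have hpos : ∀ n, 0 < (s n).2 := by
    intro n
    match n with
    | 0 => norm_num [hs, sq]
    | 1 => norm_num [hs, sq]
    | (n+2) => exact (hG n).1
  have hlt : ∀ n, 3 * (s n).2 < (s n).1 := by
    intro n
    match n with
    | 0 => norm_num [hs, sq]
    | 1 => norm_num [hs, sq]
    | (n+2) => exact (hG n).2.1
  have hsep : ∀ k n, k < n + 2 → 0 < |(s (n+2)).1 - (s k).1| - (s k).2 ∧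
      (s (n+2)).2 ≤ η n * (|(s (n+2)).1 - (s k).1| - (s k).2) := fun k n hk =>
    (hG n).2.2.2.1 _ (mem_lst η hη U k n hk)
  have hdisj' : ∀ k n, k < n → (s k).2 + (s n).2 < |(s n).1 - (s k).1| := by
    intro k n hkn
    match n with
    | 0 => omega
    | 1 =>
      have : k = 0 := by omega
      subst this
      norm_num [hs, sq]
    | (n+2) =>
      obtain ⟨h1, h2⟩ := hsep k n hkn
      have := hη2 n
      nlinarith
  refine ⟨⟨fun n => (s n).1, fun n => (s n).2, hpos, hlt, ?_, ?_, ?_⟩, rfl, rfl, rfl, rfl,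
    fun n => (hG n).2.2.1, fun k n hk => (hsep k n hk).2⟩
  · intro m n hmn
    rcases lt_or_gt_of_ne hmn with h | h
    · rw [abs_sub_comm]; exact hdisj' m n h
    · rw [add_comm]; exact hdisj' n m h
  · intro a b ha hab
    obtain ⟨n, hn1, y, hn2⟩ := hU a b hab
    by_cases hc : ∃ y ∈ U n, 0 < y ∧ ∀ p ∈ lst η hη U n, p.2 < |y - p.1|
    · have h1 := (hG n).2.2.2.2 hc
      have h2 := hn1 h1
      refine ⟨n + 2, (s (n+2)).1, h2.1, h2.2, ?_⟩
      rw [sub_self, abs_zero]; exact (hpos _).le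
    · push Not at hc
      have hy := hn1 hn2
      obtain ⟨p, hp, hpy⟩ := hc y hn2 (ha.trans hy.1)
      obtain ⟨k, hk, rfl⟩ := lst_sub η hη U n p hp
      exact ⟨k, y, hy.1, hy.2, hpy⟩
  · have h1 : Tendsto (fun n => (s (n+2)).2) atTop (𝓝 0) :=
      squeeze_zero (fun n => (hpos _).le) (fun n => (hG n).2.2.1) hη3
    exact (tendsto_add_atTop_iff_nat 2).1 h1

end Pool.Agent.Helper889.QC
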