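import Mathlib
import Pool.Agent.Helper889.QC.Cfg

set_option autoImplicit false
set_option linter.unusedSectionVars false

namespace Pool.Agent.Helper889.QC

open Filter Topology UpperHalfPlane
open scoped MatrixGroups

/-- the matrix of the half-turn about `x + i ρ` -/
noncomputable def matC (x ρ : ℝ) (hρ : 0 < ρ) : SL(2, ℝ) :=
  ⟨!![x / ρ, -(x ^ 2 + ρ ^ 2) / ρ; 1 / ρ, -x / ρ], by
    rw [Matrix.det_fin_two_of]; field_simp; ring⟩

/-- the matrix of the half-turn about `i c` -/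
noncomputable def mat0 (c : ℝ) (hc : 0 < c) : SL(2, ℝ) :=
  ⟨!![0, -c; 1 / c, 0], by
    rw [Matrix.det_fin_two_of]; field_simp; ring⟩

/-- the homomorphism to permutations -/
noncomputable abbrev tp : SL(2, ℝ) →* Equiv.Perm ℍ := MulAction.toPermHom SL(2, ℝ) ℍ

/-- the half turns: letter `0` is the half-turn about `i c`, letter `n+1` the one about `x n + i ρ n` -/
noncomputable def Cfg.h (C : Cfg) (c : ℝ) (hc : 0 < c) : ℕ → Equiv.Perm ℍ
  | 0 => tp (mat0 c hc)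
  | (n+1) => tp (matC (C.x n) (C.ρ n) (C.pos n))

theorem coe_matC (x ρ : ℝ) (hρ : 0 < ρ) (z : ℍ) :
    ((tp (matC x ρ hρ) z : ℍ) : ℂ) = x - ρ ^ 2 / ((z : ℂ) - x) := by
  show ((matC x ρ hρ • z : ℍ) : ℂ) = _
  rw [UpperHalfPlane.coe_specialLinearGroup_apply]
  have h1 : (z : ℂ) - x ≠ 0 := sub_ne_zero.2 (UpperHalfPlane.ne_ofReal z x)
  have h2 : (ρ : ℂ) ≠ 0 := by exact_mod_cast hρ.ne'
  simp only [matC, Matrix.SpecialLinearGroup.coe_mk, Matrix.of_apply, Matrix.cons_val', Matrix.cons_val_zero,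
    Matrix.cons_val_one, Matrix.cons_val_fin_one, Algebra.algebraMap_self, RingHom.id_apply]
  push_cast
  have h3 : (1:ℂ) / ρ * z + -x / ρ ≠ 0 := by
    have : (1:ℂ) / ρ * z + -x / ρ = ((z : ℂ) - x) / ρ := by field_simp; ring
    rw [this]; exact div_ne_zero h1 h2
  rw [div_eq_iff h3]
  field_simp
  ring

theorem coe_mat0 (c : ℝ) (hc : 0 < c) (z : ℍ) :
    ((tp (mat0 c hc) z : ℍ) : ℂ) = -(c ^ 2 / (z : ℂ)) := by
  show ((mat0 c hc • z : ℍ) : ℂ) = _
  rw [UpperHalfPlane.coe_specialLinearGroup_apply]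
  have h1 : (z : ℂ) ≠ 0 := z.ne_zero
  have h2 : (c : ℂ) ≠ 0 := by exact_mod_cast hc.ne'
  simp only [mat0, Matrix.SpecialLinearGroup.coe_mk, Matrix.of_apply, Matrix.cons_val', Matrix.cons_val_zero,
    Matrix.cons_val_one, Matrix.cons_val_fin_one, Algebra.algebraMap_self, RingHom.id_apply]
  push_cast
  rw [zero_mul, zero_add, add_zero, div_eq_iff (mul_ne_zero (one_div_ne_zero h2) h1)]
  field_simp

section
variable (C : Cfg) (c : ℝ) (hc : 0 < c)

theorem coe_h0 (z : ℍ) : ((C.h c hc 0 z : ℍ) : ℂ) = -(c ^ 2 / (z : ℂ)) := coe_mat0 c hc z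

theorem coe_hs (n : ℕ) (z : ℍ) : ((C.h c hc (n+1) z : ℍ) : ℂ) = C.x n - (C.ρ n) ^ 2 / ((z : ℂ) - C.x n) :=
  coe_matC _ _ _ z

theorem h_invol (j : ℕ) (z : ℍ) : C.h c hc j (C.h c hc j z) = z := by
  apply UpperHalfPlane.coe_injective
  cases j with
  | zero =>
    rw [coe_h0, coe_h0]
    have h1 : (z : ℂ) ≠ 0 := z.ne_zero
    have h2 : (c : ℂ) ≠ 0 := by exact_mod_cast hc.ne'
    field_simp
  | succ n =>
    rw [coe_hs, coe_hs]
    have h1 : (z : ℂ) - C.x n ≠ 0 := sub_ne_zero.2 (UpperHalfPlane.ne_ofReal z _)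
    have h2 : (C.ρ n : ℂ) ≠ 0 := by exact_mod_cast (C.pos n).ne'
    have h3 : (C.x n : ℂ) - (C.ρ n) ^ 2 / ((z : ℂ) - C.x n) - C.x n = - ((C.ρ n) ^ 2 / ((z : ℂ) - C.x n)) := by ring
    rw [h3]
    field_simp
    ring

theorem h_mul_self (j : ℕ) : C.h c hc j * C.h c hc j = 1 := by
  ext z : 1
  exact h_invol C c hc j z

theorem h_inv (j : ℕ) : (C.h c hc j)⁻¹ = C.h c hc j := by
  rw [inv_eq_iff_mul_eq_one]; exact h_mul_self C c hc j

/-- dist is preserved -/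
theorem dist_tp (M : SL(2, ℝ)) (z w : ℍ) : dist (tp M z) (tp M w) = dist z w := dist_smul M z w

theorem dist_h (j : ℕ) (z w : ℍ) : dist (C.h c hc j z) (C.h c hc j w) = dist z w := by
  cases j with
  | zero => exact dist_tp _ z w
  | succ n => exact dist_tp _ z w

/-- open regions -/
def Cfg.R (C : Cfg) : ℕ → ℍ → Prop
  | 0, z => z.re < 0
  | (n+1), z => ‖(z : ℂ) - C.x n‖ < C.ρ n

/-- closed regions -/
def Cfg.Rc (C : Cfg) : ℕ → ℍ → Prop
  | 0, z => z.re ≤ 0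
  | (n+1), z => ‖(z : ℂ) - C.x n‖ ≤ C.ρ n

theorem R_sub {C : Cfg} {j : ℕ} {z : ℍ} (h : C.R j z) : C.Rc j z := by
  cases j with
  | zero => exact le_of_lt h
  | succ n => exact le_of_lt h

theorem xpos (n : ℕ) : 0 < C.x n := by
  have := C.pos n; have := C.lt3 n; linarith

theorem Rc_re {n : ℕ} {z : ℍ} (h : C.Rc (n+1) z) : C.x n - C.ρ n ≤ z.re := by
  have h1 : |((z : ℂ) - C.x n).re| ≤ C.ρ n := (Complex.abs_re_le_norm _).trans h
  rw [Complex.sub_re, Complex.ofReal_re, UpperHalfPlane.coe_re, abs_le] at h1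
  linarith [h1.1]

theorem Rc_im {n : ℕ} {z : ℍ} (h : C.Rc (n+1) z) : z.im ≤ C.ρ n := by
  have h1 : |((z : ℂ) - C.x n).im| ≤ C.ρ n := (Complex.abs_im_le_norm _).trans h
  rw [Complex.sub_im, Complex.ofReal_im, UpperHalfPlane.coe_im, abs_le] at h1
  linarith [h1.2]

/-- in the circles `re/im > 2` -/
theorem Rc_slope {n : ℕ} {z : ℍ} (h : C.Rc (n+1) z) : 2 * z.im < z.re := by
  have h1 := Rc_re C h
  have h2 := Rc_im C h
  have := C.lt3 n
  linarith

theorem Rc_disj {j k : ℕ} {z : ℍ} (hj : C.Rc j z) (hk : C.Rc k z) : j = k := by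
  by_contra hne
  cases j with
  | zero =>
    cases k with
    | zero => exact hne rfl
    | succ n =>
      have h1 := Rc_slope C hk
      have h2 : z.re ≤ 0 := hj
      have := z.im_pos
      linarith
  | succ m =>
    cases k with
    | zero =>
      have h1 := Rc_slope C hj
      have h2 : z.re ≤ 0 := hk
      have := z.im_pos
      linarith
    | succ n =>
      have h1 : ‖(z : ℂ) - C.x m‖ ≤ C.ρ m := hj
      have h2 : ‖(z : ℂ) - C.x n‖ ≤ C.ρ n := hk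
      have h3 := C.disj m n (fun h => hne (by rw [h]))
      have h4 : ‖((C.x m - C.x n : ℝ) : ℂ)‖ ≤ ‖(z : ℂ) - C.x n‖ + ‖(z : ℂ) - C.x m‖ := by
        have : ((C.x m - C.x n : ℝ) : ℂ) = ((z : ℂ) - C.x n) - ((z : ℂ) - C.x m) := by push_cast; ring
        rw [this]; exact norm_sub_le _ _
      rw [Complex.norm_real, Real.norm_eq_abs] at h4
      linarith

/-- re of `h0` -/
theorem re_h0 (z : ℍ) : (C.h c hc 0 z).re = - (c ^ 2 * z.re / Complex.normSq z) := by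
  rw [← UpperHalfPlane.coe_re, coe_h0, Complex.neg_re, Complex.div_re]
  have h1 : ((c : ℂ) ^ 2).re = c ^ 2 := by rw [← Complex.ofReal_pow, Complex.ofReal_re]
  have h2 : ((c : ℂ) ^ 2).im = 0 := by rw [← Complex.ofReal_pow, Complex.ofReal_im]
  rw [h1, h2, UpperHalfPlane.coe_re]
  ring

theorem im_h0 (z : ℍ) : (C.h c hc 0 z).im = c ^ 2 * z.im / Complex.normSq z := by
  rw [← UpperHalfPlane.coe_im, coe_h0, Complex.neg_im, Complex.div_im]
  have h1 : ((c : ℂ) ^ 2).re = c ^ 2 := by rw [← Complex.ofReal_pow, Complex.ofReal_re]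
  have h2 : ((c : ℂ) ^ 2).im = 0 := by rw [← Complex.ofReal_pow, Complex.ofReal_im]
  rw [h1, h2, UpperHalfPlane.coe_im]
  ring

theorem im_hs (n : ℕ) (z : ℍ) : (C.h c hc (n+1) z).im = (C.ρ n) ^ 2 * z.im / Complex.normSq ((z : ℂ) - C.x n) := by
  rw [← UpperHalfPlane.coe_im, coe_hs, Complex.sub_im, Complex.div_im]
  have h1 : ((C.ρ n : ℂ) ^ 2).re = (C.ρ n) ^ 2 := by rw [← Complex.ofReal_pow, Complex.ofReal_re]
  have h2 : ((C.ρ n : ℂ) ^ 2).im = 0 := by rw [← Complex.ofReal_pow, Complex.ofReal_im]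
  rw [h1, h2, Complex.ofReal_im, Complex.sub_im, Complex.ofReal_im, UpperHalfPlane.coe_im]
  ring

theorem norm_hs (n : ℕ) (z : ℍ) : ‖((C.h c hc (n+1) z : ℍ) : ℂ) - C.x n‖ * ‖(z : ℂ) - C.x n‖ = (C.ρ n) ^ 2 := by
  have h1 : (z : ℂ) - C.x n ≠ 0 := sub_ne_zero.2 (UpperHalfPlane.ne_ofReal z _)
  rw [coe_hs, ← norm_mul]
  have : (↑(C.x n) - ↑(C.ρ n) ^ 2 / ((z : ℂ) - ↑(C.x n)) - ↑(C.x n)) * ((z : ℂ) - ↑(C.x n)) = -((C.ρ n : ℂ) ^ 2) := by
    field_simp; ring
  rw [this, norm_neg, norm_pow, Complex.norm_real, Real.norm_of_nonneg (C.pos n).le]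

theorem h_out_c {j : ℕ} {z : ℍ} (h : ¬ C.R j z) : C.Rc j (C.h c hc j z) := by
  cases j with
  | zero =>
    have h1 : 0 ≤ z.re := not_lt.1 h
    show (C.h c hc 0 z).re ≤ 0
    rw [re_h0]
    have := z.normSq_pos
    rw [neg_nonpos]
    positivity
  | succ n =>
    have h1 : C.ρ n ≤ ‖(z : ℂ) - C.x n‖ := not_lt.1 h
    show ‖((C.h c hc (n+1) z : ℍ) : ℂ) - C.x n‖ ≤ C.ρ n
    have h2 := norm_hs C c hc n z
    have h3 := C.pos n
    by_contra hcon
    push Not at hcon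
    nlinarith [norm_nonneg ((z : ℂ) - C.x n), norm_nonneg (((C.h c hc (n+1) z : ℍ) : ℂ) - C.x n)]

theorem h_out {j : ℕ} {z : ℍ} (h : ¬ C.Rc j z) : C.R j (C.h c hc j z) := by
  cases j with
  | zero =>
    have h1 : 0 < z.re := not_le.1 h
    show (C.h c hc 0 z).re < 0
    rw [re_h0]
    have := z.normSq_pos
    rw [neg_lt_zero]
    positivity
  | succ n =>
    have h1 : C.ρ n < ‖(z : ℂ) - C.x n‖ := not_le.1 h
    show ‖((C.h c hc (n+1) z : ℍ) : ℂ) - C.x n‖ < C.ρ n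
    have h2 := norm_hs C c hc n z
    have h3 := C.pos n
    by_contra hcon
    push Not at hcon
    nlinarith [norm_nonneg ((z : ℂ) - C.x n), norm_nonneg (((C.h c hc (n+1) z : ℍ) : ℂ) - C.x n)]

theorem h_in {j : ℕ} {z : ℍ} (h : C.R j z) : ¬ C.Rc j (C.h c hc j z) := by
  intro hcon
  by_cases h2 : C.R j (C.h c hc j z)
  · -- both inside
    cases j with
    | zero =>
      have h1 : z.re < 0 := h
      have h3 : (C.h c hc 0 z).re < 0 := h2
      rw [re_h0] at h3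
      have := z.normSq_pos
      have h4 : c ^ 2 * z.re / Complex.normSq z < 0 := by
        apply div_neg_of_neg_of_pos _ this
        exact mul_neg_of_pos_of_neg (by positivity) h1
      linarith
    | succ n =>
      have h1 : ‖(z : ℂ) - C.x n‖ < C.ρ n := h
      have h3 : ‖((C.h c hc (n+1) z : ℍ) : ℂ) - C.x n‖ < C.ρ n := h2
      have h4 := norm_hs C c hc n z
      have h5 := C.pos n
      nlinarith [norm_nonneg ((z : ℂ) - C.x n), norm_nonneg (((C.h c hc (n+1) z : ℍ) : ℂ) - C.x n)]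
  · cases j with
    | zero =>
      have h1 : z.re < 0 := h
      have h3 : (C.h c hc 0 z).re ≤ 0 := hcon
      rw [re_h0] at h3
      have := z.normSq_pos
      have h4 : c ^ 2 * z.re / Complex.normSq z < 0 := by
        apply div_neg_of_neg_of_pos _ this
        exact mul_neg_of_pos_of_neg (by positivity) h1
      linarith
    | succ n =>
      have h1 : ‖(z : ℂ) - C.x n‖ < C.ρ n := h
      have h3 : ‖((C.h c hc (n+1) z : ℍ) : ℂ) - C.x n‖ ≤ C.ρ n := hcon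
      have h4 := norm_hs C c hc n z
      have h5 := C.pos n
      nlinarith [norm_nonneg ((z : ℂ) - C.x n), norm_nonneg (((C.h c hc (n+1) z : ℍ) : ℂ) - C.x n)]

end

end Pool.Agent.Helper889.QC
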