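import Mathlib
import Pool.Agent.Helper889.QC.Moves

set_option autoImplicit false
set_option linter.unusedSectionVars false

namespace Pool.Agent.Helper889.QC

open Filter Topology UpperHalfPlane
open scoped MatrixGroups ENNReal

/-- heights -/
noncomputable def Ht : ℕ → ℍ → ℝ
  | 0, z => z.im / Complex.normSq z
  | (_+1), z => z.im

theorem Ht_pos (j : ℕ) (z : ℍ) : 0 < Ht j z := by
  cases j with
  | zero => exact div_pos z.im_pos z.normSq_pos
  | succ n => exact z.im_pos

/-- contraction ratios -/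
noncomputable def Cfg.b (C : Cfg) (c : ℝ) : ℕ → ℕ → ℝ
  | 0, 0 => 0
  | 0, (_+1) => 1 / c ^ 2
  | (m+1), 0 => (C.ρ m) ^ 2
  | (m+1), (n+1) => (C.ρ m / (|C.x m - C.x n| - C.ρ n)) ^ 2

section
variable (C : Cfg) (c : ℝ) (hc : 0 < c)

theorem b_nonneg (j k : ℕ) : 0 ≤ C.b c j k := by
  cases j with
  | zero => cases k with
    | zero => exact le_refl _
    | succ n => show 0 ≤ 1 / c ^ 2; positivity
  | succ m => cases k with
    | zero => exact sq_nonneg _
    | succ n => exact sq_nonneg _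

theorem Ht_step {j k : ℕ} (hjk : j ≠ k) {z : ℍ} (hz : C.Rc k z) :
    Ht j (C.h c hc j z) ≤ C.b c j k * Ht k z := by
  cases j with
  | zero =>
    cases k with
    | zero => exact absurd rfl hjk
    | succ n =>
      show (C.h c hc 0 z).im / Complex.normSq (C.h c hc 0 z) ≤ 1 / c ^ 2 * z.im
      have h1 := z.normSq_pos
      have h2 : Complex.normSq (C.h c hc 0 z) = c ^ 4 / Complex.normSq z := by
        rw [coe_h0, Complex.normSq_neg, map_div₀, ← Complex.ofReal_pow, Complex.normSq_ofReal]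
        ring
      rw [im_h0, h2]
      apply le_of_eq
      field_simp
  | succ m =>
    have hρ := C.pos m
    cases k with
    | zero =>
      show (C.h c hc (m+1) z).im ≤ (C.ρ m) ^ 2 * (z.im / Complex.normSq z)
      rw [im_hs, mul_div_assoc]
      have h0 : z.re ≤ 0 := hz
      have h1 := z.normSq_pos
      have h2 : Complex.normSq (z : ℂ) ≤ Complex.normSq ((z : ℂ) - C.x m) := by
        rw [Complex.normSq_apply, Complex.normSq_apply, Complex.sub_re, Complex.sub_im, Complex.ofReal_re,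
          Complex.ofReal_im, UpperHalfPlane.coe_re, UpperHalfPlane.coe_im]
        have := xpos C m
        nlinarith
      have h3 := z.im_pos
      gcongr
    | succ n =>
      show (C.h c hc (m+1) z).im ≤ (C.ρ m / (|C.x m - C.x n| - C.ρ n)) ^ 2 * z.im
      rw [im_hs]
      have hmn : m ≠ n := fun h => hjk (by rw [h])
      have hd : 0 < |C.x m - C.x n| - C.ρ n := by
        have := C.disj m n hmn; linarith
      have h1 : ‖(z : ℂ) - C.x n‖ ≤ C.ρ n := hz
      have h2 : |C.x m - C.x n| - C.ρ n ≤ ‖(z : ℂ) - C.x m‖ := by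
        have h4 : ‖((C.x m - C.x n : ℝ) : ℂ)‖ ≤ ‖(z : ℂ) - C.x n‖ + ‖(z : ℂ) - C.x m‖ := by
          have : ((C.x m - C.x n : ℝ) : ℂ) = ((z : ℂ) - C.x n) - ((z : ℂ) - C.x m) := by push_cast; ring
          rw [this]; exact norm_sub_le _ _
        rw [Complex.norm_real, Real.norm_eq_abs] at h4
        linarith
      rw [Complex.normSq_eq_norm_sq, div_pow]
      have h3 := z.im_pos
      have h5 : (|C.x m - C.x n| - C.ρ n) ^ 2 ≤ ‖(z : ℂ) - C.x m‖ ^ 2 := by
        apply pow_le_pow_left₀ hd.le h2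
      rw [div_mul_eq_mul_div]
      gcongr

/-- Lyapunov hypothesis -/
structure Lyap (C : Cfg) (c s θ B : ℝ) (v : ℕ → ℝ) : Prop where
  s_pos : 0 < s
  θ_pos : 0 < θ
  θ_lt : θ < 1
  B_pos : 0 < B
  v_ge : ∀ j, 1 ≤ v j
  sum_le : ∀ k, ∑' j, (if j = k then 0 else ENNReal.ofReal (v j * C.b c j k ^ s)) ≤ ENNReal.ofReal (θ * v k)
  bd : ∀ n, v (n+1) * C.ρ n ^ s ≤ B

variable {s θ B : ℝ} {v : ℕ → ℝ} (L : Lyap C c s θ B v)

/-- the Lyapunov function -/
noncomputable def mu (v : ℕ → ℝ) (s : ℝ) (k : ℕ) (z : ℍ) : ℝ := v k * Ht k z ^ s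

include L in
theorem mu_pos (k : ℕ) (z : ℍ) : 0 < mu v s k z := by
  have h1 := L.v_ge k
  have h2 := Real.rpow_pos_of_pos (Ht_pos k z) s
  unfold mu; positivity

include L in
theorem pair_le {j k : ℕ} (hjk : j ≠ k) : v j * C.b c j k ^ s ≤ θ * v k := by
  have h1 := ENNReal.le_tsum (f := fun j => (if j = k then 0 else ENNReal.ofReal (v j * C.b c j k ^ s))) j
  rw [if_neg hjk] at h1
  have h2 := h1.trans (L.sum_le k)
  rwa [ENNReal.ofReal_le_ofReal_iff] at h2
  have := L.v_ge k; have := L.θ_pos; positivity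

include L in
theorem mu_term {j k : ℕ} (hjk : j ≠ k) {z : ℍ} (hz : C.Rc k z) :
    mu v s j (C.h c hc j z) ≤ (v j * C.b c j k ^ s) * Ht k z ^ s := by
  unfold mu
  rw [mul_assoc, ← Real.mul_rpow (b_nonneg C c j k) (Ht_pos k z).le]
  have := L.v_ge j
  gcongr
  · exact (Ht_pos _ _).le
  · exact L.s_pos.le
  · exact Ht_step C c hc hjk hz

include L in
theorem mu_step {j k : ℕ} (hjk : j ≠ k) {z : ℍ} (hz : C.Rc k z) :
    mu v s j (C.h c hc j z) ≤ θ * mu v s k z := by
  refine (mu_term C c hc L hjk hz).trans ?_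
  unfold mu
  rw [← mul_assoc]
  exact mul_le_mul_of_nonneg_right (pair_le C c L hjk) (Real.rpow_pos_of_pos (Ht_pos k z) s).le

include L in
theorem one_step (k : ℕ) {z : ℍ} (hz : C.Rc k z) :
    ∑' j, (if j = k then 0 else ENNReal.ofReal (mu v s j (C.h c hc j z)))
      ≤ ENNReal.ofReal θ * ENNReal.ofReal (mu v s k z) := by
  have hr := Real.rpow_pos_of_pos (Ht_pos k z) s
  calc ∑' j, (if j = k then 0 else ENNReal.ofReal (mu v s j (C.h c hc j z)))
      ≤ ∑' j, (if j = k then 0 else ENNReal.ofReal (v j * C.b c j k ^ s)) * ENNReal.ofReal (Ht k z ^ s) := by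
        refine ENNReal.tsum_le_tsum fun j => ?_
        by_cases hjk : j = k
        · rw [if_pos hjk, if_pos hjk]; simp
        · rw [if_neg hjk, if_neg hjk, ← ENNReal.ofReal_mul]
          · exact ENNReal.ofReal_le_ofReal (mu_term C c hc L hjk hz)
          · have := L.v_ge j
            have := Real.rpow_nonneg (b_nonneg C c j k) s
            positivity
    _ = (∑' j, (if j = k then 0 else ENNReal.ofReal (v j * C.b c j k ^ s))) * ENNReal.ofReal (Ht k z ^ s) :=
        ENNReal.tsum_mul_right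
    _ ≤ ENNReal.ofReal (θ * v k) * ENNReal.ofReal (Ht k z ^ s) := by gcongr; exact L.sum_le k
    _ = ENNReal.ofReal θ * ENNReal.ofReal (mu v s k z) := by
        have := L.v_ge k
        have := L.θ_pos
        unfold mu
        rw [← ENNReal.ofReal_mul (by positivity), ← ENNReal.ofReal_mul (by positivity), mul_assoc]

/-- reduction in `n` steps -/
inductive Red (C : Cfg) (c : ℝ) (hc : 0 < c) : ℕ → ℍ → Prop
  | zero (z : ℍ) : (∀ j, ¬ C.R j z) → Red C c hc 0 z
  | succ (n : ℕ) (z : ℍ) (j : ℕ) : C.R j z → Red C c hc n (C.h c hc j z) → Red C c hc (n+1) z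

include L in
theorem mu_bd (n : ℕ) {z : ℍ} (hz : C.R (n+1) z) : mu v s (n+1) z ≤ B := by
  refine le_trans ?_ (L.bd n)
  unfold mu
  have h1 : Ht (n+1) z ≤ C.ρ n := Rc_im C (R_sub hz)
  have := L.v_ge (n+1)
  gcongr
  · exact (Ht_pos _ _).le
  · exact L.s_pos.le

include L in
/-- the reduction terminates -/
theorem red_aux (n : ℕ) : ∀ j z, C.R j z → B * θ ^ n < mu v s j z → ∃ m, Red C c hc m z := by
  induction n with
  | zero =>
    intro j z hz h
    rw [pow_zero, mul_one] at h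
    cases j with
    | succ i => exact absurd (mu_bd C c L i hz) (not_le.2 h)
    | zero =>
      by_cases hD : ∀ k, ¬ C.R k (C.h c hc 0 z)
      · exact ⟨1, Red.succ 0 z 0 hz (Red.zero _ hD)⟩
      · push Not at hD
        obtain ⟨k, hk⟩ := hD
        have hk0 : 0 ≠ k := by
          rintro rfl
          exact h_in C c hc hz (R_sub hk)
        obtain ⟨i, rfl⟩ : ∃ i, k = i + 1 := ⟨k - 1, by omega⟩
        have h1 := mu_step C c hc L hk0 (R_sub hk)
        rw [h_invol] at h1
        have h2 := mu_bd C c L i hk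
        have h3 := L.θ_lt
        have h4 := mu_pos C c L (i+1) (C.h c hc 0 z)
        nlinarith [L.θ_pos]
  | succ n ih =>
    intro j z hz h
    by_cases hD : ∀ k, ¬ C.R k (C.h c hc j z)
    · exact ⟨1, Red.succ 0 z j hz (Red.zero _ hD)⟩
    · push Not at hD
      obtain ⟨k, hk⟩ := hD
      have hk0 : j ≠ k := by
        rintro rfl
        exact h_in C c hc hz (R_sub hk)
      have h1 := mu_step C c hc L hk0 (R_sub hk)
      rw [h_invol] at h1
      have h2 : B * θ ^ n < mu v s k (C.h c hc j z) := by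
        have : B * θ ^ (n+1) = θ * (B * θ ^ n) := by ring
        rw [this] at h
        exact lt_of_mul_lt_mul_left (h.trans_le h1) L.θ_pos.le
      obtain ⟨m, hm⟩ := ih k _ hk h2
      exact ⟨m + 1, Red.succ m z j hz hm⟩

include L in
theorem red_all (z : ℍ) : ∃ m, Red C c hc m z := by
  by_cases hD : ∀ k, ¬ C.R k z
  · exact ⟨0, Red.zero _ hD⟩
  · push Not at hD
    obtain ⟨k, hk⟩ := hD
    have h1 : Tendsto (fun n : ℕ => B * θ ^ n) atTop (𝓝 (B * 0)) :=
      (tendsto_pow_atTop_nhds_zero_of_lt_one L.θ_pos.le L.θ_lt).const_mul B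
    rw [mul_zero] at h1
    obtain ⟨n, hn⟩ := (h1.eventually (gt_mem_nhds (mu_pos C c L k z))).exists
    exact red_aux C c hc L n k z hk hn

/-- product of a word, the head acts first -/
noncomputable def P : List ℕ → Equiv.Perm ℍ
  | [] => 1
  | (j :: l) => P l * C.h c hc j

/-- the word is reduced and can follow the letter `k` -/
def okl : ℕ → List ℕ → Prop
  | _, [] => True
  | k, (j :: l) => j ≠ k ∧ okl j l

/-- the group -/
noncomputable def Cfg.G (C : Cfg) (c : ℝ) (hc : 0 < c) : Subgroup (Equiv.Perm ℍ) :=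
  Subgroup.closure (Set.range (C.h c hc))

/-- reduced words -/
def redw : List ℕ → Prop
  | [] => True
  | (j :: l) => okl j l

theorem redw_tail {j : ℕ} {l : List ℕ} (h : redw (j :: l)) : redw l := by
  cases l with
  | nil => trivial
  | cons i l => exact h.2

theorem surj (γ : Equiv.Perm ℍ) (hγ : γ ∈ C.G c hc) : ∃ l, redw l ∧ γ = P C c hc l := by
  have key : ∀ γ j, (∃ l, redw l ∧ γ = P C c hc l) → ∃ l, redw l ∧ γ * C.h c hc j = P C c hc l := by
    rintro γ j ⟨l, hl, rfl⟩
    cases l with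
    | nil => exact ⟨[j], trivial, rfl⟩
    | cons i l =>
      by_cases hij : i = j
      · subst hij
        refine ⟨l, redw_tail hl, ?_⟩
        show P C c hc l * C.h c hc i * C.h c hc i = P C c hc l
        rw [mul_assoc, h_mul_self, mul_one]
      · exact ⟨j :: i :: l, ⟨hij, hl⟩, rfl⟩
  induction hγ using Subgroup.closure_induction_right with
  | one => exact ⟨[], trivial, rfl⟩
  | mul_right x hx y hy ih =>
    obtain ⟨j, rfl⟩ := hy
    exact key x j ih
  | mul_inv_cancel x hx y hy ih =>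
    obtain ⟨j, rfl⟩ := hy
    rw [h_inv]
    exact key x j ih

theorem P_mem (l : List ℕ) : P C c hc l ∈ C.G c hc := by
  induction l with
  | nil => exact one_mem _
  | cons j l ih => exact mul_mem ih (Subgroup.subset_closure ⟨j, rfl⟩)

theorem surj' (γ : Equiv.Perm ℍ) (hγ : γ ∈ C.G c hc) :
    ∃ q : Bool × List ℕ, okl 0 q.2 ∧ γ = P C c hc q.2 * (if q.1 then C.h c hc 0 else 1) := by
  obtain ⟨l, hl, rfl⟩ := surj C c hc γ hγ
  cases l with
  | nil => exact ⟨(false, []), trivial, by simp⟩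
  | cons i l =>
    by_cases hi : i = 0
    · subst hi
      exact ⟨(true, l), hl, by simp [P]⟩
    · exact ⟨(false, i :: l), ⟨hi, hl⟩, by simp⟩

/-- weights of words -/
noncomputable def HH (v : ℕ → ℝ) (s : ℝ) : List ℕ → ℍ → ℕ → ℝ≥0∞
  | [], z, k => ENNReal.ofReal (mu v s k z)
  | (j :: l), z, k => if j = k then 0 else HH v s l (C.h c hc j z) j

include L in
theorem HH_fixed (N : ℕ) : ∀ z k, C.Rc k z → ∑' f : Fin N → ℕ, HH C c hc v s (List.ofFn f) z k
    ≤ ENNReal.ofReal θ ^ N * ENNReal.ofReal (mu v s k z) := by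
  induction N with
  | zero =>
    intro z k hz
    rw [tsum_fintype]
    simp [HH]
  | succ N ih =>
    intro z k hz
    rw [← (Fin.consEquiv (fun _ : Fin (N+1) => ℕ)).tsum_eq, ENNReal.tsum_prod']
    have h1 : ∀ j, ∑' f : Fin N → ℕ, HH C c hc v s (List.ofFn ((Fin.consEquiv (fun _ : Fin (N+1) => ℕ)) (j, f))) z k
        ≤ ENNReal.ofReal θ ^ N * (if j = k then 0 else ENNReal.ofReal (mu v s j (C.h c hc j z))) := by
      intro j
      have h2 : ∀ f : Fin N → ℕ, List.ofFn ((Fin.consEquiv (fun _ : Fin (N+1) => ℕ)) (j, f)) = j :: List.ofFn f := by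
        intro f
        show List.ofFn (Fin.cons j f : Fin (N+1) → ℕ) = _
        rw [List.ofFn_succ]
        simp
      simp only [h2]
      by_cases hjk : j = k
      · simp [HH, hjk]
      · simp only [HH, if_neg hjk]
        refine ih _ _ (h_out_c C c hc ?_)
        intro hR
        exact hjk (Rc_disj C (R_sub hR) hz)
    calc _ ≤ ∑' j, ENNReal.ofReal θ ^ N * (if j = k then 0 else ENNReal.ofReal (mu v s j (C.h c hc j z))) :=
          ENNReal.tsum_le_tsum h1
      _ = ENNReal.ofReal θ ^ N * ∑' j, (if j = k then 0 else ENNReal.ofReal (mu v s j (C.h c hc j z))) :=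
          ENNReal.tsum_mul_left
      _ ≤ ENNReal.ofReal θ ^ N * (ENNReal.ofReal θ * ENNReal.ofReal (mu v s k z)) := by
          gcongr; exact one_step C c hc L k hz
      _ = _ := by rw [pow_succ, mul_assoc]

include L in
theorem HH_total {z : ℍ} {k : ℕ} (hz : C.Rc k z) : ∑' l : List ℕ, HH C c hc v s l z k ≠ ∞ := by
  rw [← (List.equivSigmaTuple (α := ℕ)).symm.tsum_eq, ENNReal.tsum_sigma']
  have h1 : ∑' (N : ℕ), ∑' (f : Fin N → ℕ), HH C c hc v s (List.equivSigmaTuple.symm ⟨N, f⟩) z k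
      ≤ ∑' N : ℕ, ENNReal.ofReal θ ^ N * ENNReal.ofReal (mu v s k z) :=
    ENNReal.tsum_le_tsum fun N => HH_fixed C c hc L N z k hz
  refine ne_top_of_le_ne_top ?_ h1
  rw [ENNReal.tsum_mul_right, ENNReal.tsum_geometric]
  refine ENNReal.mul_ne_top ?_ ENNReal.ofReal_ne_top
  rw [ENNReal.inv_ne_top, Ne, tsub_eq_zero_iff_le, not_le]
  exact ENNReal.ofReal_lt_one.2 L.θ_lt

theorem exp_le (z : ℍ) (k : ℕ) : Real.exp (-dist I z) ≤ 2 * Ht k z := by
  have h1 := UpperHalfPlane.cosh_dist I z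
  have h2 : dist (I : ℂ) z ^ 2 = z.re ^ 2 + (1 - z.im) ^ 2 := by
    rw [Complex.dist_eq, ← Complex.normSq_eq_norm_sq, Complex.normSq_apply, Complex.sub_re, Complex.sub_im]
    have e1 : (I : ℂ).re = 0 := UpperHalfPlane.I_re
    have e2 : (I : ℂ).im = 1 := UpperHalfPlane.I_im
    rw [e1, e2, UpperHalfPlane.coe_re, UpperHalfPlane.coe_im]
    ring
  have hi := z.im_pos
  have h3 : Real.cosh (dist I z) = (z.re ^ 2 + z.im ^ 2 + 1) / (2 * z.im) := by
    rw [h1, h2, UpperHalfPlane.I_im]; field_simp; ring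
  have h4 : Real.cosh (dist I z) ≤ Real.exp (dist I z) := by
    rw [Real.cosh_eq]
    have : Real.exp (-dist I z) ≤ Real.exp (dist I z) := Real.exp_le_exp.2 (by linarith [dist_nonneg (x := I) (y := z)])
    linarith
  have h5 : Real.exp (-dist I z) ≤ 2 * z.im / (z.re ^ 2 + z.im ^ 2 + 1) := by
    rw [Real.exp_neg, ← inv_div (z.re ^ 2 + z.im ^ 2 + 1) (2 * z.im), ← h3]
    exact inv_anti₀ (Real.cosh_pos _) h4
  refine h5.trans ?_
  cases k with
  | zero =>
    show _ ≤ 2 * (z.im / Complex.normSq z)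
    have h6 : Complex.normSq (z : ℂ) = z.re ^ 2 + z.im ^ 2 := by
      rw [Complex.normSq_apply, UpperHalfPlane.coe_re, UpperHalfPlane.coe_im]; ring
    have h7 := z.normSq_pos
    rw [h6] at h7 ⊢
    rw [← mul_div_assoc]
    exact div_le_div_of_nonneg_left (by positivity) h7 (by linarith)
  | succ n =>
    show _ ≤ 2 * z.im
    rw [div_le_iff₀ (by positivity)]
    nlinarith [sq_nonneg z.re, sq_nonneg z.im]

include L in
theorem HH_lower (l : List ℕ) : ∀ z k, okl k l →
    ENNReal.ofReal ((Real.exp (-dist I (P C c hc l z)) / 2) ^ s) ≤ HH C c hc v s l z k := by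
  induction l with
  | nil =>
    intro z k _
    show ENNReal.ofReal ((Real.exp (-dist I z) / 2) ^ s) ≤ ENNReal.ofReal (mu v s k z)
    apply ENNReal.ofReal_le_ofReal
    have h1 := exp_le z k
    have h2 : (Real.exp (-dist I z) / 2) ^ s ≤ Ht k z ^ s := by
      apply Real.rpow_le_rpow (by positivity) (by linarith) L.s_pos.le
    have h3 := L.v_ge k
    have h4 := Real.rpow_pos_of_pos (Ht_pos k z) s
    unfold mu
    nlinarith
  | cons j l ih =>
    intro z k h
    show _ ≤ (if j = k then 0 else HH C c hc v s l (C.h c hc j z) j)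
    rw [if_neg h.1]
    exact ih _ _ h.2

include L in
/-- convergence of the Poincaré series -/
theorem summable_G : Summable fun γ : C.G c hc => Real.exp (-s * dist I ((γ : Equiv.Perm ℍ) I)) := by
  have hI : C.Rc 0 I := by show I.re ≤ 0; rw [UpperHalfPlane.I_re]
  have hI2 : C.Rc 0 (C.h c hc 0 I) := by
    apply h_out_c
    show ¬ (I.re < 0)
    rw [UpperHalfPlane.I_re]; exact lt_irrefl _
  choose q hq1 hq2 using fun γ : C.G c hc => surj' C c hc γ.1 γ.2
  have hinj : Function.Injective q := by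
    intro a b hab
    apply Subtype.ext
    rw [hq2 a, hq2 b, hab]
  set F : Bool × List ℕ → ℝ≥0∞ := fun p => HH C c hc v s p.2 (if p.1 then C.h c hc 0 I else I) 0 with hF
  have hFs : ∑' p, F p ≠ ∞ := by
    rw [ENNReal.tsum_prod', tsum_fintype, Fintype.sum_bool]
    refine ENNReal.add_ne_top.2 ⟨?_, ?_⟩
    · simp only [hF, if_true]; exact HH_total C c hc L hI2
    · simp only [hF, Bool.false_eq_true, if_false]; exact HH_total C c hc L hI
  have hle : ∀ γ : C.G c hc, ENNReal.ofReal (Real.exp (-s * dist I ((γ : Equiv.Perm ℍ) I)))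
      ≤ ENNReal.ofReal (2 ^ s) * F (q γ) := by
    intro γ
    have h1 : ENNReal.ofReal ((Real.exp (-dist I ((γ : Equiv.Perm ℍ) I)) / 2) ^ s) ≤ F (q γ) := by
      have h2 := HH_lower C c hc L (q γ).2 (if (q γ).1 then C.h c hc 0 I else I) 0 (hq1 γ)
      have h3 : (γ : Equiv.Perm ℍ) I = P C c hc (q γ).2 (if (q γ).1 then C.h c hc 0 I else I) := by
        conv_lhs => rw [hq2 γ]
        rw [Equiv.Perm.mul_apply]
        split_ifs <;> rfl
      rw [h3]; exact h2
    have h4 : Real.exp (-s * dist I ((γ : Equiv.Perm ℍ) I)) = 2 ^ s * ((Real.exp (-dist I ((γ : Equiv.Perm ℍ) I)) / 2) ^ s) := by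
      rw [Real.div_rpow (Real.exp_pos _).le (by norm_num), ← Real.exp_mul]
      have : (2:ℝ) ^ s ≠ 0 := (Real.rpow_pos_of_pos two_pos s).ne'
      field_simp
    rw [h4, ENNReal.ofReal_mul (by positivity)]
    gcongr
  have hsum : ∑' γ : C.G c hc, ENNReal.ofReal (Real.exp (-s * dist I ((γ : Equiv.Perm ℍ) I))) ≠ ∞ := by
    refine ne_top_of_le_ne_top ?_ (ENNReal.tsum_le_tsum hle)
    rw [ENNReal.tsum_mul_left]
    refine ENNReal.mul_ne_top ENNReal.ofReal_ne_top ?_
    exact ne_top_of_le_ne_top hFs (ENNReal.tsum_comp_le_tsum_of_injective hinj F)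
  have := ENNReal.summable_toReal hsum
  refine this.congr fun γ => ?_
  rw [ENNReal.toReal_ofReal (Real.exp_pos _).le]

include L in
theorem finite_G (r : ℝ) : {γ : Equiv.Perm ℍ | γ ∈ C.G c hc ∧ dist I (γ I) ≤ r}.Finite := by
  have h1 := (summable_G C c hc L).tendsto_cofinite_zero
  have h2 : ∀ᶠ γ : C.G c hc in cofinite, Real.exp (-s * dist I ((γ : Equiv.Perm ℍ) I)) < Real.exp (-s * r) :=
    h1.eventually (gt_mem_nhds (Real.exp_pos _))
  rw [Filter.eventually_cofinite] at h2
  refine (h2.image (fun γ : C.G c hc => (γ : Equiv.Perm ℍ))).subset ?_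
  rintro γ ⟨hγ, hd⟩
  refine ⟨⟨γ, hγ⟩, ?_, rfl⟩
  show ¬ (Real.exp (-s * dist I (γ I)) < Real.exp (-s * r))
  rw [not_lt, Real.exp_le_exp]
  have := L.s_pos
  nlinarith

end

end Pool.Agent.Helper889.QC
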