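import Mathlib
import Pool.Agent.Helper889.QC.Lyap

set_option autoImplicit false
set_option linter.unusedSectionVars false

namespace Pool.Agent.Helper889.QC

open Filter Topology UpperHalfPlane
open scoped MatrixGroups ENNReal ComplexConjugate

/-- the scaling profile -/
structure Prof (F : ℝ → ℝ) (lam : ℝ) : Prop where
  pos : ∀ t, 0 < F t
  one : ∀ t, 2 ≤ t → F t = 1
  eq_lam : ∀ t, t ≤ 1 → F t = lam

theorem Prof.inv {F : ℝ → ℝ} {lam : ℝ} (h : Prof F lam) : Prof (fun t => (F t)⁻¹) lam⁻¹ where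
  pos := fun t => inv_pos.2 (h.pos t)
  one := fun t ht => by rw [h.one t ht, inv_one]
  eq_lam := fun t ht => by rw [h.eq_lam t ht]

/-- the slope -/
noncomputable def slp (z : ℍ) : ℝ := z.re / z.im

/-- the map `z ↦ F(re/im) z` -/
noncomputable def Sc (F : ℝ → ℝ) (hF : ∀ t, 0 < F t) (z : ℍ) : ℍ :=
  ⟨(F (slp z) : ℂ) * z, by
    rw [Complex.im_ofReal_mul]; exact mul_pos (hF _) z.im_pos⟩

theorem coe_Sc (F : ℝ → ℝ) (hF : ∀ t, 0 < F t) (z : ℍ) : ((Sc F hF z : ℍ) : ℂ) = F (slp z) * z := rfl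

theorem Sc_re (F : ℝ → ℝ) (hF : ∀ t, 0 < F t) (z : ℍ) : (Sc F hF z).re = F (slp z) * z.re :=
  Complex.re_ofReal_mul _ _

theorem Sc_im (F : ℝ → ℝ) (hF : ∀ t, 0 < F t) (z : ℍ) : (Sc F hF z).im = F (slp z) * z.im :=
  Complex.im_ofReal_mul _ _

theorem slp_Sc (F : ℝ → ℝ) (hF : ∀ t, 0 < F t) (z : ℍ) : slp (Sc F hF z) = slp z := by
  unfold slp
  rw [Sc_re, Sc_im]
  have h1 := (hF (slp z)).ne'
  have h2 := z.im_ne_zero
  field_simp

theorem Sc_one {F : ℝ → ℝ} (hF : ∀ t, 0 < F t) {z : ℍ} (h : F (slp z) = 1) : Sc F hF z = z := by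
  apply UpperHalfPlane.coe_injective
  rw [coe_Sc, h]; simp

section
variable (C : Cfg) (c : ℝ) (hc : 0 < c) (c' : ℝ) (hc' : 0 < c')
variable {F : ℝ → ℝ} {lam : ℝ} (hP : Prof F lam) (hlam : lam = c' / c)

theorem Sc_inv (z : ℍ) : Sc (fun t => (F t)⁻¹) hP.inv.pos (Sc F hP.pos z) = z := by
  apply UpperHalfPlane.coe_injective
  rw [coe_Sc, coe_Sc, slp_Sc]
  have h1 : (F (slp z) : ℂ) ≠ 0 := by exact_mod_cast (hP.pos _).ne'
  push_cast
  field_simp

theorem slp_Rc {n : ℕ} {z : ℍ} (h : C.Rc (n+1) z) : 2 < slp z := by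
  unfold slp
  rw [lt_div_iff₀ z.im_pos]
  exact Rc_slope C h

theorem slp_h0 (z : ℍ) : slp (C.h c hc 0 z) = - slp z := by
  unfold slp
  rw [re_h0, im_h0]
  have h1 := z.normSq_ne_zero
  have h2 := z.im_ne_zero
  field_simp

theorem Sc_notR {j : ℕ} {z : ℍ} (h : ¬ C.R j z) : ¬ C.R j (Sc F hP.pos z) := by
  cases j with
  | zero =>
    have h1 : 0 ≤ z.re := not_lt.1 h
    show ¬ ((Sc F hP.pos z).re < 0)
    rw [Sc_re, not_lt]
    exact mul_nonneg (hP.pos _).le h1
  | succ n =>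
    by_cases ht : 2 ≤ slp z
    · rw [Sc_one hP.pos (hP.one _ ht)]; exact h
    · intro hcon
      have := slp_Rc C (R_sub hcon)
      rw [slp_Sc] at this
      exact ht this.le

theorem Sc_notRc {j : ℕ} {z : ℍ} (h : ¬ C.Rc j z) : ¬ C.Rc j (Sc F hP.pos z) := by
  cases j with
  | zero =>
    have h1 : 0 < z.re := not_le.1 h
    show ¬ ((Sc F hP.pos z).re ≤ 0)
    rw [Sc_re, not_le]
    exact mul_pos (hP.pos _) h1
  | succ n =>
    by_cases ht : 2 ≤ slp z
    · rw [Sc_one hP.pos (hP.one _ ht)]; exact h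
    · intro hcon
      have := slp_Rc C hcon
      rw [slp_Sc] at this
      exact ht this.le

include hlam in
theorem Sc_comm0 {z : ℍ} (h1 : slp z ≤ 1) (h2 : slp (C.h c hc 0 z) ≤ 1) :
    Sc F hP.pos (C.h c hc 0 z) = C.h c' hc' 0 (Sc F hP.pos z) := by
  apply UpperHalfPlane.coe_injective
  rw [coe_Sc, hP.eq_lam _ h2, coe_h0, coe_h0, coe_Sc, hP.eq_lam _ h1, hlam]
  have e1 : (c : ℂ) ≠ 0 := by exact_mod_cast hc.ne'
  have e2 : (c' : ℂ) ≠ 0 := by exact_mod_cast hc'.ne'
  have e3 := z.ne_zero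
  push_cast
  field_simp

theorem Sc_comms {n : ℕ} {z : ℍ} (h1 : 2 ≤ slp z) (h2 : 2 ≤ slp (C.h c hc (n+1) z)) :
    Sc F hP.pos (C.h c hc (n+1) z) = C.h c' hc' (n+1) (Sc F hP.pos z) := by
  rw [Sc_one hP.pos (hP.one _ h1), Sc_one hP.pos (hP.one _ h2)]
  rfl

include hlam in
theorem Sc_bdry {j : ℕ} {z : ℍ} (h1 : C.Rc j z) (h2 : ¬ C.R j z) :
    Sc F hP.pos (C.h c hc j z) = C.h c' hc' j (Sc F hP.pos z) := by
  have h3 := h_out_c C c hc h2
  cases j with
  | zero =>
    have e1 : z.re = 0 := le_antisymm h1 (not_lt.1 h2)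
    have e2 : slp z = 0 := by unfold slp; rw [e1, zero_div]
    refine Sc_comm0 C c hc c' hc' hP hlam (by rw [e2]; norm_num) (by rw [slp_h0, e2]; norm_num)
  | succ n => exact Sc_comms C c hc c' hc' hP (slp_Rc C h1).le (slp_Rc C h3).le

/-- the graph of the conjugating map -/
inductive Rel (C : Cfg) (c : ℝ) (hc : 0 < c) (c' : ℝ) (hc' : 0 < c') (S : ℍ → ℍ) : ℍ → ℍ → Prop
  | base (z : ℍ) : (∀ j, ¬ C.R j z) → Rel C c hc c' hc' S z (S z)
  | step (j : ℕ) (z y : ℍ) : C.R j z → Rel C c hc c' hc' S (C.h c hc j z) y →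
      Rel C c hc c' hc' S z (C.h c' hc' j y)

theorem Rel_unique {S : ℍ → ℍ} {z y : ℍ} (h : Rel C c hc c' hc' S z y) : ∀ y', Rel C c hc c' hc' S z y' → y = y' := by
  induction h with
  | base z hD =>
    intro y' h'
    cases h' with
    | base _ _ => rfl
    | step j _ y hj _ => exact absurd hj (hD j)
  | step j z y hj _ ih =>
    intro y' h'
    cases h' with
    | base _ hD => exact absurd hj (hD j)
    | step k _ y2 hk h2 =>
      have e : j = k := Rc_disj C (R_sub hj) (R_sub hk)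
      subst e
      rw [ih _ h2]

theorem Rel_exists {S : ℍ → ℍ} {n : ℕ} {z : ℍ} (h : Red C c hc n z) : ∃ y, Rel C c hc c' hc' S z y := by
  induction h with
  | zero z hD => exact ⟨_, Rel.base z hD⟩
  | succ n z j hj _ ih =>
    obtain ⟨y, hy⟩ := ih
    exact ⟨_, Rel.step j z y hj hy⟩

include hP in
theorem Rel_notRc {z y : ℍ} (h : Rel C c hc c' hc' (Sc F hP.pos) z y) : ∀ j, ¬ C.Rc j z → ¬ C.Rc j y := by
  induction h with
  | base z hD => intro j hj; exact Sc_notRc C hP hj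
  | step k z y hk _ ih =>
    intro j hj hcon
    have h1 := h_out C c' hc' (ih k (h_in C c hc hk))
    have e : j = k := Rc_disj C hcon (R_sub h1)
    subst e
    exact hj (R_sub hk)

include hP in
theorem Rel_inv {z y : ℍ} (h : Rel C c hc c' hc' (Sc F hP.pos) z y) :
    Rel C c' hc' c hc (Sc (fun t => (F t)⁻¹) hP.inv.pos) y z := by
  induction h with
  | base z hD =>
    have h1 := Rel.base (C := C) (c := c') (hc := hc') (c' := c) (hc' := hc) (S := Sc (fun t => (F t)⁻¹) hP.inv.pos)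
      (Sc F hP.pos z) (fun j => Sc_notR C hP (hD j))
    rwa [Sc_inv hP] at h1
  | step k z y hk h2 ih =>
    have h3 := Rel_notRc C c hc c' hc' hP h2 k (h_in C c hc hk)
    have h4 : Rel C c' hc' c hc (Sc (fun t => (F t)⁻¹) hP.inv.pos) (C.h c' hc' k (C.h c' hc' k y)) (C.h c hc k z) := by
      rw [h_invol]; exact ih
    have h5 := Rel.step k _ _ (h_out C c' hc' h3) h4
    rwa [h_invol] at h5

open Classical in
/-- the conjugating map -/
noncomputable def ww (C : Cfg) (c : ℝ) (hc : 0 < c) (c' : ℝ) (hc' : 0 < c') (S : ℍ → ℍ) (z : ℍ) : ℍ :=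
  if h : ∃ y, Rel C c hc c' hc' S z y then h.choose else z

variable (hR : ∀ z, ∃ m, Red C c hc m z) (hR' : ∀ z, ∃ m, Red C c' hc' m z)

include hR in
theorem ww_rel (S : ℍ → ℍ) (z : ℍ) : Rel C c hc c' hc' S z (ww C c hc c' hc' S z) := by
  obtain ⟨m, hm⟩ := hR z
  have h : ∃ y, Rel C c hc c' hc' S z y := Rel_exists C c hc c' hc' hm
  unfold ww
  rw [dif_pos h]
  exact h.choose_spec

include hR in
theorem ww_eq {S : ℍ → ℍ} {z y : ℍ} (h : Rel C c hc c' hc' S z y) : ww C c hc c' hc' S z = y :=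
  Rel_unique C c hc c' hc' (ww_rel C c hc c' hc' hR S z) _ h

include hR in
theorem ww_D {S : ℍ → ℍ} {z : ℍ} (h : ∀ j, ¬ C.R j z) : ww C c hc c' hc' S z = S z :=
  ww_eq C c hc c' hc' hR (Rel.base z h)

include hR in
theorem ww_R {S : ℍ → ℍ} {z : ℍ} {j : ℕ} (h : C.R j z) :
    ww C c hc c' hc' S z = C.h c' hc' j (ww C c hc c' hc' S (C.h c hc j z)) :=
  ww_eq C c hc c' hc' hR (Rel.step j z _ h (ww_rel C c hc c' hc' hR S _))

/-- the conjugating permutation -/
noncomputable def wP : Equiv.Perm ℍ where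
  toFun := ww C c hc c' hc' (Sc F hP.pos)
  invFun := ww C c' hc' c hc (Sc (fun t => (F t)⁻¹) hP.inv.pos)
  left_inv := fun z => ww_eq C c' hc' c hc hR' (Rel_inv C c hc c' hc' hP (ww_rel C c hc c' hc' hR _ z))
  right_inv := fun z => by
    refine ww_eq C c hc c' hc' hR ?_
    have h1 := Rel_inv C c' hc' c hc hP.inv (ww_rel C c' hc' c hc hR' _ z)
    have h2 : Sc (fun t => ((F t)⁻¹)⁻¹) hP.inv.inv.pos = Sc F hP.pos := by
      funext u
      apply UpperHalfPlane.coe_injective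
      rw [coe_Sc, coe_Sc, inv_inv]
    rw [h2] at h1
    exact h1

theorem notR_of_bdry {j : ℕ} {z : ℍ} (h1 : C.Rc j z) (h2 : ¬ C.R j z) : ∀ k, ¬ C.R k z := by
  intro k hk
  have e := Rc_disj C h1 (R_sub hk)
  subst e
  exact h2 hk

include hlam hR in
theorem ww_equiv (j : ℕ) (z : ℍ) :
    ww C c hc c' hc' (Sc F hP.pos) (C.h c hc j z) = C.h c' hc' j (ww C c hc c' hc' (Sc F hP.pos) z) := by
  by_cases h1 : C.R j z
  · rw [ww_R C c hc c' hc' hR h1, h_invol]
  by_cases h2 : C.Rc j z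
  · have h3 := h_out_c C c hc h1
    have h4 : ¬ C.R j (C.h c hc j z) := by
      intro hcon
      apply h_in C c hc hcon
      rw [h_invol]; exact h2
    rw [ww_D C c hc c' hc' hR (notR_of_bdry C h2 h1), ww_D C c hc c' hc' hR (notR_of_bdry C h3 h4)]
    exact Sc_bdry C c hc c' hc' hP hlam h2 h1
  · rw [ww_R C c hc c' hc' hR (h_out C c hc h2), h_invol]

theorem Rc_closed (k : ℕ) : IsClosed {z : ℍ | C.Rc k z} := by
  cases k with
  | zero => exact isClosed_le UpperHalfPlane.continuous_re continuous_const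
  | succ n =>
    have : Continuous fun z : ℍ => ‖(z : ℂ) - C.x n‖ := (UpperHalfPlane.continuous_coe.sub continuous_const).norm
    exact isClosed_le this continuous_const

theorem near_disj (j : ℕ) (z : ℍ) (h : ∀ k, k ≠ j → ¬ C.Rc k z) : ∀ᶠ z' in 𝓝 z, ∀ k, k ≠ j → ¬ C.Rc k z' := by
  obtain ⟨N, hN⟩ := (C.tend.eventually (gt_mem_nhds (show 0 < z.im / 2 from half_pos z.im_pos))).exists_forall_of_atTop
  have h1 : ∀ᶠ z' in 𝓝 z, z.im / 2 < z'.im :=
    (UpperHalfPlane.continuous_im.tendsto z).eventually (lt_mem_nhds (half_lt_self z.im_pos))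
  have h2 : ∀ᶠ z' in 𝓝 z, ∀ k ∈ Finset.range (N + 1), k ≠ j → ¬ C.Rc k z' := by
    rw [Filter.eventually_all_finset]
    intro k _
    by_cases hk : k = j
    · exact Filter.Eventually.of_forall fun _ h => absurd hk h
    · have := (Rc_closed C k).isOpen_compl.mem_nhds (h k hk)
      filter_upwards [this] with z' hz' _ using hz'
  filter_upwards [h1, h2] with z' h3 h4 k hk hcon
  by_cases hkN : k ∈ Finset.range (N + 1)
  · exact h4 k hkN hk hcon
  · rw [Finset.mem_range, not_lt] at hkN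
    obtain ⟨i, rfl⟩ : ∃ i, k = i + 1 := ⟨k - 1, by omega⟩
    have h5 := Rc_im C hcon
    have h6 := hN i (by omega)
    linarith

theorem continuous_tp (M : SL(2, ℝ)) : Continuous (tp M) := continuous_const_smul M

theorem continuous_h (j : ℕ) : Continuous (C.h c hc j) := by
  cases j with
  | zero => exact continuous_tp _
  | succ n => exact continuous_tp _

theorem continuous_slp : Continuous slp :=
  UpperHalfPlane.continuous_re.div UpperHalfPlane.continuous_im fun z => z.im_ne_zero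

include hlam hR in
theorem ww_local {z : ℍ} (hD : ∀ j, ¬ C.R j z) :
    ∀ᶠ z' in 𝓝 z, ww C c hc c' hc' (Sc F hP.pos) z' = Sc F hP.pos z' := by
  by_cases hA : ∀ j, ¬ C.Rc j z
  · have h1 := near_disj C 0 z fun k _ => hA k
    have h2 := (Rc_closed C 0).isOpen_compl.mem_nhds (hA 0)
    filter_upwards [h1, h2] with z' h3 h4
    refine ww_D C c hc c' hc' hR fun k hk => ?_
    by_cases hk0 : k = 0
    · subst hk0; exact h4 (R_sub hk)
    · exact h3 k hk0 (R_sub hk)
  · push Not at hA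
    obtain ⟨j, hj⟩ := hA
    have hRj := hD j
    have hj' := h_out_c C c hc hRj
    have h1 := near_disj C j z fun k hk hcon => hk (Rc_disj C hcon hj)
    have h2 := ((continuous_h C c hc j).tendsto z).eventually
      (near_disj C j (C.h c hc j z) fun k hk hcon => hk (Rc_disj C hcon hj'))
    have h3 : ∀ᶠ z' in 𝓝 z, Sc F hP.pos (C.h c hc j z') = C.h c' hc' j (Sc F hP.pos z') := by
      cases j with
      | zero =>
        have e1 : z.re = 0 := le_antisymm hj (not_lt.1 hRj)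
        have e2 : slp z = 0 := by unfold slp; rw [e1, zero_div]
        have e3 : ∀ᶠ z' in 𝓝 z, slp z' < 1 := (continuous_slp.tendsto z).eventually (gt_mem_nhds (by rw [e2]; norm_num))
        have e4 : ∀ᶠ z' in 𝓝 z, -1 < slp z' := (continuous_slp.tendsto z).eventually (lt_mem_nhds (by rw [e2]; norm_num))
        filter_upwards [e3, e4] with z' h5 h6
        exact Sc_comm0 C c hc c' hc' hP hlam h5.le (by rw [slp_h0]; linarith)
      | succ n =>
        have e3 : ∀ᶠ z' in 𝓝 z, 2 < slp z' := (continuous_slp.tendsto z).eventually (lt_mem_nhds (slp_Rc C hj))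
        have e4 : ∀ᶠ z' in 𝓝 z, 2 < slp (C.h c hc (n+1) z') :=
          ((continuous_slp.comp (continuous_h C c hc (n+1))).tendsto z).eventually (lt_mem_nhds (slp_Rc C hj'))
        filter_upwards [e3, e4] with z' h5 h6
        exact Sc_comms C c hc c' hc' hP h5.le h6.le
    filter_upwards [h1, h2, h3] with z' g1 g2 g3
    by_cases hz' : C.R j z'
    · rw [ww_R C c hc c' hc' hR hz', ww_D C c hc c' hc' hR, g3, h_invol]
      intro k hk
      by_cases hkj : k = j
      · subst hkj; exact h_in C c hc hz' (R_sub hk)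
      · exact g2 k hkj (R_sub hk)
    · refine ww_D C c hc c' hc' hR fun k hk => ?_
      by_cases hkj : k = j
      · subst hkj; exact hz' hk
      · exact g1 k hkj (R_sub hk)

end

end Pool.Agent.Helper889.QC
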