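import Mathlib
import Pool.Agent.Helper889.QC.Lyap

set_option autoImplicit false
set_option linter.unusedSectionVars false

namespace Pool.Agent.Helper889.QC

open Filter Topology UpperHalfPlane
open scoped MatrixGroups ENNReal ComplexConjugate

/-- poles of the half turns -/
noncomputable def Cfg.pol (C : Cfg) : ℕ → ℝ
  | 0 => 0
  | (n+1) => C.x n

/-- numerators of the half turns -/
noncomputable def Cfg.qq (C : Cfg) (c : ℝ) : ℕ → ℝ
  | 0 => c ^ 2
  | (n+1) => (C.ρ n) ^ 2

section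
variable (C : Cfg) (c : ℝ) (hc : 0 < c)

include hc in
theorem qq_pos (j : ℕ) : 0 < C.qq c j := by
  cases j with
  | zero => show 0 < c ^ 2; positivity
  | succ n => have := C.pos n; show 0 < (C.ρ n) ^ 2; positivity

theorem coe_h (j : ℕ) (z : ℍ) : ((C.h c hc j z : ℍ) : ℂ) = C.pol j - C.qq c j / ((z : ℂ) - C.pol j) := by
  cases j with
  | zero => rw [coe_h0]; simp [Cfg.pol, Cfg.qq]
  | succ n => rw [coe_hs]; simp [Cfg.pol, Cfg.qq]

/-- the orbit of `i` -/
def Orb : Set ℂ := {u | ∃ γ ∈ C.G c hc, u = (γ I : ℍ)}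

theorem orb_h (j : ℕ) {u : ℂ} (hu : u ∈ Orb C c hc) : (C.pol j : ℂ) - C.qq c j / (u - C.pol j) ∈ Orb C c hc := by
  obtain ⟨γ, hγ, rfl⟩ := hu
  refine ⟨C.h c hc j * γ, mul_mem (Subgroup.subset_closure ⟨j, rfl⟩) hγ, ?_⟩
  rw [Equiv.Perm.mul_apply, coe_h]

/-- the orbit is unbounded -/
theorem orb_unbdd (r : ℝ) : ∃ u ∈ Orb C c hc, r < ‖u‖ := by
  obtain ⟨n, y, h1, h2, h3⟩ := C.dense (4 * |r| + 4) (4 * |r| + 5) (by positivity) (by linarith)
  refine ⟨_, ⟨C.h c hc (n+1), Subgroup.subset_closure ⟨n+1, rfl⟩, rfl⟩, ?_⟩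
  have hI : ¬ C.R (n+1) I := by
    intro h
    have := Rc_slope C (R_sub h)
    rw [UpperHalfPlane.I_re, UpperHalfPlane.I_im] at this
    linarith
  have h4 : ‖((C.h c hc (n+1) I : ℍ) : ℂ) - C.x n‖ ≤ C.ρ n := h_out_c C c hc hI
  have h5 := C.lt3 n
  have h6 := xpos C n
  rw [abs_le] at h3
  have h7 : ‖(C.x n : ℂ)‖ ≤ ‖((C.h c hc (n+1) I : ℍ) : ℂ)‖ + ‖((C.h c hc (n+1) I : ℍ) : ℂ) - C.x n‖ := by
    have := norm_sub_le (((C.h c hc (n+1) I : ℍ) : ℂ)) (((C.h c hc (n+1) I : ℍ) : ℂ) - C.x n)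
    rwa [sub_sub_cancel] at this
  rw [Complex.norm_real, Real.norm_of_nonneg h6.le] at h7
  have := le_abs_self r
  linarith

theorem not_open_endpoint_left (n m : ℕ) : ¬ |(C.x n - C.ρ n) - C.x m| < C.ρ m := by
  intro h
  by_cases hmn : n = m
  · subst hmn
    have := C.pos n
    rw [show C.x n - C.ρ n - C.x n = - C.ρ n by ring, abs_neg, abs_of_pos this] at h
    exact lt_irrefl _ h
  · have h1 := C.disj n m hmn
    have := C.pos n
    have h2 : |C.x n - C.x m| ≤ |(C.x n - C.ρ n) - C.x m| + |C.ρ n| := by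
      have := abs_add_le ((C.x n - C.ρ n) - C.x m) (C.ρ n)
      rwa [show (C.x n - C.ρ n) - C.x m + C.ρ n = C.x n - C.x m by ring] at this
    rw [abs_of_pos this] at h2
    linarith

theorem not_open_endpoint_right (n m : ℕ) : ¬ |(C.x n + C.ρ n) - C.x m| < C.ρ m := by
  intro h
  by_cases hmn : n = m
  · subst hmn
    have := C.pos n
    rw [show C.x n + C.ρ n - C.x n = C.ρ n by ring, abs_of_pos this] at h
    exact lt_irrefl _ h
  · have h1 := C.disj n m hmn
    have := C.pos n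
    have h2 : |C.x n - C.x m| ≤ |(C.x n + C.ρ n) - C.x m| + |C.ρ n| := by
      have := abs_sub ((C.x n + C.ρ n) - C.x m) (C.ρ n)
      rwa [show (C.x n + C.ρ n) - C.x m - C.ρ n = C.x n - C.x m by ring] at this
    rw [abs_of_pos this] at h2
    linarith

theorem between {a b : ℝ} (ha0 : 0 ≤ a) (hab : a < b) (ha : ∀ n, ¬ |a - C.x n| < C.ρ n)
    (hb : ∀ n, ¬ |b - C.x n| < C.ρ n) : ∃ m, a ≤ C.x m - C.ρ m ∧ C.x m + C.ρ m ≤ b := by
  obtain ⟨n, y, h1, h2, h3⟩ := C.dense ((a + b) / 2) b (by linarith) (by linarith)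
  rw [abs_le] at h3
  refine ⟨n, ?_, ?_⟩
  · by_contra hcon
    push Not at hcon
    apply ha n
    rw [abs_lt]; constructor <;> linarith
  · by_contra hcon
    push Not at hcon
    apply hb n
    rw [abs_lt]; constructor <;> linarith

theorem near {x : ℝ} (hx0 : 0 ≤ x) (hx : ∀ n, ¬ |x - C.x n| < C.ρ n) {ε : ℝ} (hε : 0 < ε) :
    ∃ m, x - ε < C.x m - C.ρ m ∧ C.x m + C.ρ m < x + ε := by
  by_cases h1 : ∀ n, ¬ |(x + ε / 2) - C.x n| < C.ρ n
  · obtain ⟨m, m1, m2⟩ := between C hx0 (by linarith : x < x + ε / 2) hx h1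
    exact ⟨m, by linarith, by linarith⟩
  push Not at h1
  obtain ⟨k, hk⟩ := h1
  rw [abs_lt] at hk
  by_cases h2 : x < C.x k - C.ρ k
  · obtain ⟨m, m1, m2⟩ := between C hx0 h2 hx (fun m => not_open_endpoint_left C k m)
    exact ⟨m, by linarith, by linarith⟩
  push Not at h2
  have h3 : x = C.x k - C.ρ k := by
    by_contra hne
    have h4 : C.x k - C.ρ k < x := lt_of_le_of_ne h2 (Ne.symm hne)
    apply hx k
    rw [abs_lt]; constructor <;> linarith
  have hxpos : 0 < x := by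
    have := C.lt3 k; have := C.pos k; linarith
  set δ := min ε x / 2 with hδ
  have hδ0 : 0 < δ := by positivity
  have hδ1 : δ < ε := by
    have := min_le_left ε x
    rw [hδ]; linarith
  have hδ2 : δ < x := by
    have := min_le_right ε x
    rw [hδ]; linarith
  by_cases h5 : ∀ n, ¬ |(x - δ) - C.x n| < C.ρ n
  · obtain ⟨m, m1, m2⟩ := between C (by linarith) (by linarith : x - δ < x) h5 hx
    exact ⟨m, by linarith, by linarith⟩
  push Not at h5
  obtain ⟨k', hk'⟩ := h5
  rw [abs_lt] at hk'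
  have hkk : k' ≠ k := by
    rintro rfl
    linarith
  by_cases h6 : C.x k' + C.ρ k' < x
  · obtain ⟨m, m1, m2⟩ := between C (by linarith [C.lt3 k', C.pos k']) h6 (fun m => not_open_endpoint_right C k' m) hx
    exact ⟨m, by linarith, by linarith⟩
  · push Not at h6
    exfalso
    have h7 := C.disj k' k hkk
    have h8 : |C.x k' - C.x k| ≤ C.ρ k' + C.ρ k := by
      rw [abs_le]; constructor <;> linarith [C.pos k, C.pos k']
    linarith

/-- boundary points outside of the open intervals are limit points -/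
theorem lim_of_not {x : ℝ} (hx0 : 0 ≤ x) (hx : ∀ n, ¬ |x - C.x n| < C.ρ n) : (x : ℂ) ∈ closure (Orb C c hc) := by
  rw [Metric.mem_closure_iff]
  intro ε hε
  obtain ⟨m, m1, m2⟩ := near C hx0 hx hε
  refine ⟨_, ⟨C.h c hc (m+1), Subgroup.subset_closure ⟨m+1, rfl⟩, rfl⟩, ?_⟩
  have hI : ¬ C.R (m+1) I := by
    intro h
    have := Rc_slope C (R_sub h)
    rw [UpperHalfPlane.I_re, UpperHalfPlane.I_im] at this
    linarith
  have h4 : ‖((C.h c hc (m+1) I : ℍ) : ℂ) - C.x m‖ ≤ C.ρ m := h_out_c C c hc hI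
  rw [Complex.dist_eq]
  have h5 : ‖(x : ℂ) - ((C.h c hc (m+1) I : ℍ) : ℂ)‖ ≤ ‖((x - C.x m : ℝ) : ℂ)‖ + ‖((C.h c hc (m+1) I : ℍ) : ℂ) - C.x m‖ := by
    have : (x : ℂ) - ((C.h c hc (m+1) I : ℍ) : ℂ) = ((x - C.x m : ℝ) : ℂ) - (((C.h c hc (m+1) I : ℍ) : ℂ) - C.x m) := by
      push_cast; ring
    rw [this]; exact norm_sub_le _ _
  rw [Complex.norm_real, Real.norm_eq_abs] at h5
  have h6 : |x - C.x m| < ε - C.ρ m := by
    rw [abs_lt]; constructor <;> linarith
  linarith

/-- poles are limit points -/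
theorem pole_lim (n : ℕ) : (C.x n : ℂ) ∈ closure (Orb C c hc) := by
  rw [Metric.mem_closure_iff]
  intro ε hε
  obtain ⟨u, hu, hr⟩ := orb_unbdd C c hc (|C.x n| + (C.ρ n) ^ 2 / ε + 1)
  refine ⟨_, orb_h C c hc (n+1) hu, ?_⟩
  have hρ := C.pos n
  have h1 : (C.ρ n) ^ 2 / ε + 1 < ‖u - C.x n‖ := by
    have := norm_sub_norm_le u (C.x n : ℂ)
    rw [Complex.norm_real, Real.norm_eq_abs] at this
    linarith
  have h2 : 0 < (C.ρ n) ^ 2 / ε := by positivity
  rw [Complex.dist_eq]
  show ‖(C.x n : ℂ) - (((C.x n : ℝ) : ℂ) - (((C.ρ n) ^ 2 : ℝ) : ℂ) / (u - ((C.x n : ℝ) : ℂ)))‖ < ε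
  rw [sub_sub_cancel, norm_div, Complex.norm_real, Real.norm_of_nonneg (by positivity), div_lt_iff₀ (by linarith)]
  have h3 : (C.ρ n) ^ 2 = ε * ((C.ρ n) ^ 2 / ε) := by field_simp
  calc (C.ρ n) ^ 2 = ε * ((C.ρ n) ^ 2 / ε) := h3
    _ < ε * ‖u - C.x n‖ := by
      apply mul_lt_mul_of_pos_left _ hε
      linarith

/-- limit points are mapped to limit points -/
theorem lim_h (j : ℕ) {y : ℝ} (hy : (y : ℂ) ∈ closure (Orb C c hc)) (hyp : y ≠ C.pol j) :
    ((C.pol j - C.qq c j / (y - C.pol j) : ℝ) : ℂ) ∈ closure (Orb C c hc) := by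
  have h1 : ContinuousAt (fun u : ℂ => (C.pol j : ℂ) - C.qq c j / (u - C.pol j)) (y : ℂ) := by
    have : (y : ℂ) - C.pol j ≠ 0 := by
      rw [← Complex.ofReal_sub]; exact_mod_cast sub_ne_zero.2 hyp
    fun_prop (disch := assumption)
  have h2 := mem_closure_image h1 hy
  have h3 : (fun u : ℂ => (C.pol j : ℂ) - C.qq c j / (u - C.pol j)) '' Orb C c hc ⊆ Orb C c hc := by
    rintro _ ⟨u, hu, rfl⟩
    exact orb_h C c hc j hu
  have h4 := closure_mono h3 h2
  push_cast
  exact h4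

/-- half-planes -/
def Hp (a b : ℝ) (z : ℂ) : Prop := ((z - a) * conj (z - b)).re < 0

theorem Hp_iff (a b : ℝ) (z : ℂ) : Hp a b z ↔ (z.re - a) * (z.re - b) + z.im ^ 2 < 0 := by
  unfold Hp
  rw [Complex.mul_re, Complex.conj_re, Complex.conj_im]
  simp only [Complex.sub_re, Complex.sub_im, Complex.ofReal_re, Complex.ofReal_im]
  rw [show (z.re - a) * (z.re - b) - (z.im - 0) * -(z.im - 0) = (z.re - a) * (z.re - b) + z.im ^ 2 by ring]

theorem Hp_h (j : ℕ) {a b : ℝ} (hab : 0 < (a - C.pol j) * (b - C.pol j)) (z : ℍ) (hz : Hp a b z) :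
    Hp (C.pol j - C.qq c j / (a - C.pol j)) (C.pol j - C.qq c j / (b - C.pol j)) (C.h c hc j z) := by
  have ha : a - C.pol j ≠ 0 := by rintro h; rw [h] at hab; simp at hab
  have hb : b - C.pol j ≠ 0 := by rintro h; rw [h] at hab; simp at hab
  have hz0 : (z : ℂ) - C.pol j ≠ 0 := sub_ne_zero.2 (UpperHalfPlane.ne_ofReal z _)
  have hq := qq_pos C c hc j
  have key : ∀ t : ℝ, t - C.pol j ≠ 0 → ((C.h c hc j z : ℍ) : ℂ) - ((C.pol j - C.qq c j / (t - C.pol j) : ℝ) : ℂ)
      = ((C.qq c j / (t - C.pol j) : ℝ) : ℂ) * (((z : ℂ) - t) / ((z : ℂ) - C.pol j)) := by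
    intro t ht
    have ht' : (t : ℂ) - C.pol j ≠ 0 := by
      rw [← Complex.ofReal_sub]; exact_mod_cast ht
    rw [coe_h]
    push_cast
    field_simp
    ring
  unfold Hp at hz ⊢
  rw [key a ha, key b hb, map_mul, Complex.conj_ofReal, map_div₀]
  have e1 : ((C.qq c j / (a - C.pol j) : ℝ) : ℂ) * (((z : ℂ) - a) / ((z : ℂ) - C.pol j)) *
      (((C.qq c j / (b - C.pol j) : ℝ) : ℂ) * (conj ((z : ℂ) - b) / conj ((z : ℂ) - C.pol j)))
      = (((C.qq c j) ^ 2 / ((a - C.pol j) * (b - C.pol j)) / Complex.normSq ((z : ℂ) - C.pol j) : ℝ) : ℂ) *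
        (((z : ℂ) - a) * conj ((z : ℂ) - b)) := by
    have hc0 : conj ((z : ℂ) - C.pol j) ≠ 0 := (map_ne_zero (starRingEnd ℂ)).2 hz0
    have ha' : (a : ℂ) - C.pol j ≠ 0 := by rw [← Complex.ofReal_sub]; exact_mod_cast ha
    have hb' : (b : ℂ) - C.pol j ≠ 0 := by rw [← Complex.ofReal_sub]; exact_mod_cast hb
    push_cast
    rw [Complex.normSq_eq_conj_mul_self]
    field_simp
  rw [e1, Complex.re_ofReal_mul]
  refine mul_neg_of_pos_of_neg ?_ hz
  have := Complex.normSq_pos.2 hz0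
  positivity

/-- free intervals lie in the open intervals -/
theorem free_sub {a b : ℝ} (hab : a < b) (h : ∀ y, a ≤ y → y ≤ b → (y : ℂ) ∉ closure (Orb C c hc)) :
    b < 0 ∨ ∃ n, C.x n - C.ρ n < a ∧ b < C.x n + C.ρ n := by
  by_cases hb : b < 0
  · left; exact hb
  right
  push Not at hb
  have h1 : ∃ n, |b - C.x n| < C.ρ n := by
    by_contra hcon
    push Not at hcon
    exact h b hab.le le_rfl (lim_of_not C c hc hb fun n => not_lt.2 (hcon n))
  obtain ⟨n, hn⟩ := h1
  rw [abs_lt] at hn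
  refine ⟨n, ?_, by linarith⟩
  by_contra hcon
  push Not at hcon
  refine h (C.x n - C.ρ n) hcon (by linarith) (lim_of_not C c hc ?_ fun m => not_open_endpoint_left C n m)
  have := C.lt3 n; have := C.pos n; linarith

theorem Hp_sub {a b : ℝ} (hab : a < b) {z : ℍ} (hz : Hp a b z) :
    (b < 0 → C.R 0 z) ∧ ∀ n, C.x n - C.ρ n < a → b < C.x n + C.ρ n → C.R (n+1) z := by
  rw [Hp_iff, UpperHalfPlane.coe_re, UpperHalfPlane.coe_im] at hz
  have hi := z.im_pos
  have h1 : a < z.re ∧ z.re < b := by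
    constructor
    · by_contra hcon
      push Not at hcon
      have : 0 ≤ (z.re - a) * (z.re - b) := mul_nonneg_of_nonpos_of_nonpos (by linarith) (by linarith)
      nlinarith
    · by_contra hcon
      push Not at hcon
      have : 0 ≤ (z.re - a) * (z.re - b) := mul_nonneg (by linarith) (by linarith)
      nlinarith
  refine ⟨fun hb => ?_, fun n h2 h3 => ?_⟩
  · show z.re < 0
    linarith
  · show ‖(z : ℂ) - C.x n‖ < C.ρ n
    have hρ := C.pos n
    rw [← abs_of_pos hρ, ← abs_of_nonneg (norm_nonneg ((z : ℂ) - C.x n)), ← sq_lt_sq, ← Complex.normSq_eq_norm_sq,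
      Complex.normSq_apply, Complex.sub_re, Complex.sub_im, Complex.ofReal_re, Complex.ofReal_im,
      UpperHalfPlane.coe_re, UpperHalfPlane.coe_im]
    have h4 : 0 < z.re - a := by linarith [h1.1]
    have h5 : 0 < b - z.re := by linarith [h1.2]
    have h6 : 0 < a - (C.x n - C.ρ n) := by linarith
    have h7 : 0 < (C.x n + C.ρ n) - b := by linarith
    nlinarith [mul_pos h4 h5, mul_pos h4 h7, mul_pos h6 h5, mul_pos h6 h7]

theorem step_interval {p q a b : ℝ} (hq : 0 < q) (hab : a < b) (hs : 0 < (a - p) * (b - p)) :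
    p - q / (a - p) < p - q / (b - p) ∧ ∀ y, p - q / (a - p) ≤ y → y ≤ p - q / (b - p) →
      y ≠ p ∧ a ≤ p - q / (y - p) ∧ p - q / (y - p) ≤ b := by
  rcases lt_or_ge 0 (a - p) with h | h
  · have hb : 0 < b - p := by linarith
    have h1 : q / (b - p) < q / (a - p) := div_lt_div_of_pos_left hq h (by linarith)
    refine ⟨by linarith, fun y hy1 hy2 => ?_⟩
    have hqb : 0 < q / (b - p) := by positivity
    have hy : 0 < p - y := by linarith
    have e : q / (y - p) = - (q / (p - y)) := by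
      rw [← neg_sub p y, div_neg]
    refine ⟨by linarith, ?_, ?_⟩
    · rw [e]
      have : a - p ≤ q / (p - y) := by
        rw [le_div_iff₀ hy]
        have h2 : p - y ≤ q / (a - p) := by linarith
        rw [le_div_iff₀ h] at h2
        linarith
      linarith
    · rw [e]
      have : q / (p - y) ≤ b - p := by
        rw [div_le_iff₀ hy]
        have h2 : q / (b - p) ≤ p - y := by linarith
        rw [div_le_iff₀ hb] at h2
        linarith
      linarith
  · have ha : a - p < 0 := by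
      rcases h.lt_or_eq with h' | h'
      · exact h'
      · rw [h'] at hs; simp at hs
    have hb : b - p < 0 := by
      by_contra hcon
      push Not at hcon
      have := mul_nonpos_of_nonpos_of_nonneg ha.le hcon
      linarith
    have e1 : q / (a - p) = - (q / (p - a)) := by rw [← neg_sub p a, div_neg]
    have e2 : q / (b - p) = - (q / (p - b)) := by rw [← neg_sub p b, div_neg]
    have h1 : q / (p - a) < q / (p - b) := div_lt_div_of_pos_left hq (by linarith) (by linarith)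
    rw [e1, e2]
    refine ⟨by linarith, fun y hy1 hy2 => ?_⟩
    have hqa : 0 < q / (p - a) := by
      have : 0 < p - a := by linarith
      positivity
    have hy : 0 < y - p := by linarith
    refine ⟨by linarith, ?_, ?_⟩
    · have : q / (y - p) ≤ p - a := by
        rw [div_le_iff₀ hy]
        have h2 : q / (p - a) ≤ y - p := by linarith
        rw [div_le_iff₀ (by linarith)] at h2
        linarith
      linarith
    · have : p - b ≤ q / (y - p) := by
        rw [le_div_iff₀ hy]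
        have h2 : y - p ≤ q / (p - b) := by linarith
        rw [le_div_iff₀ (by linarith)] at h2
        linarith
      linarith

theorem no_free {n : ℕ} {z : ℍ} (hr : Red C c hc n z) : ∀ a b : ℝ, a < b →
    (∀ y, a ≤ y → y ≤ b → (y : ℂ) ∉ closure (Orb C c hc)) → ¬ Hp a b z := by
  induction hr with
  | zero z hD =>
    intro a b hab h hz
    obtain ⟨h1, h2⟩ := Hp_sub C hab hz
    rcases free_sub C c hc hab h with h3 | ⟨n, h3, h4⟩
    · exact hD _ (h1 h3)
    · exact hD _ (h2 n h3 h4)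
  | succ n z j hj hr ih =>
    intro a b hab h hz
    obtain ⟨h1, h2⟩ := Hp_sub C hab hz
    have key : 0 < (a - C.pol j) * (b - C.pol j) := by
      rcases free_sub C c hc hab h with h3 | ⟨m, h3, h4⟩
      · have e : j = 0 := Rc_disj C (R_sub hj) (R_sub (h1 h3))
        rw [e]
        show 0 < (a - 0) * (b - 0)
        nlinarith
      · have e : j = m + 1 := Rc_disj C (R_sub hj) (R_sub (h2 m h3 h4))
        rw [e]
        show 0 < (a - C.x m) * (b - C.x m)
        by_contra hcon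
        push Not at hcon
        rcases le_or_gt a (C.x m) with h5 | h5
        · rcases le_or_gt (C.x m) b with h6 | h6
          · exact h (C.x m) h5 h6 (pole_lim C c hc m)
          · have := mul_pos_of_neg_of_neg (by linarith : a - C.x m < 0) (by linarith : b - C.x m < 0)
            linarith
        · have := mul_pos (by linarith : 0 < a - C.x m) (by linarith : 0 < b - C.x m)
          linarith
    obtain ⟨s1, s2⟩ := step_interval (qq_pos C c hc j) hab key
    refine ih _ _ s1 (fun y hy1 hy2 hy => ?_) (Hp_h C c hc j key z hz)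
    obtain ⟨t1, t2, t3⟩ := s2 y hy1 hy2
    exact h _ t2 t3 (lim_h C c hc j hy t1)

variable {s θ B : ℝ} {v : ℕ → ℝ} (L : Lyap C c s θ B v)

include L in
/-- every real number is a limit point -/
theorem all_lim (x : ℝ) : (x : ℂ) ∈ closure (Orb C c hc) := by
  by_contra hx
  have h1 : (closure (Orb C c hc))ᶜ ∈ 𝓝 (x : ℂ) := isClosed_closure.isOpen_compl.mem_nhds hx
  obtain ⟨ε, hε, hb⟩ := Metric.mem_nhds_iff.1 h1
  have hfree : ∀ y, x - ε / 2 ≤ y → y ≤ x + ε / 2 → (y : ℂ) ∉ closure (Orb C c hc) := by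
    intro y h2 h3
    refine hb ?_
    rw [Metric.mem_ball, Complex.dist_eq, ← Complex.ofReal_sub, Complex.norm_real, Real.norm_eq_abs, abs_lt]
    constructor <;> linarith
  set z : ℍ := ⟨⟨x, ε / 4⟩, by show 0 < ε / 4; positivity⟩ with hz
  obtain ⟨n, hn⟩ := red_all C c hc L z
  refine no_free C c hc hn _ _ (by linarith) hfree ?_
  rw [Hp_iff]
  show (x - (x - ε / 2)) * (x - (x + ε / 2)) + (ε / 4) ^ 2 < 0
  nlinarith

end

end Pool.Agent.Helper889.QC
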