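import Mathlib
import Pool.Agent.Helper889.QC.Lim

set_option autoImplicit false
set_option linter.unusedSectionVars false

namespace Pool.Agent.Helper889.QC

open Filter Topology UpperHalfPlane
open scoped MatrixGroups ENNReal ComplexConjugate

section
variable (C : Cfg) (c : ℝ) (hc : 0 < c)

/-- the even subgroup -/
noncomputable def Cfg.E (C : Cfg) (c : ℝ) (hc : 0 < c) : Subgroup (Equiv.Perm ℍ) :=
  Subgroup.closure (Set.range fun n => C.h c hc 0 * C.h c hc (n+1))

theorem h_mem (j : ℕ) : C.h c hc j ∈ C.G c hc := Subgroup.subset_closure ⟨j, rfl⟩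

theorem E_le : C.E c hc ≤ C.G c hc := by
  unfold Cfg.E
  rw [Subgroup.closure_le]
  rintro _ ⟨n, rfl⟩
  exact mul_mem (h_mem C c hc 0) (h_mem C c hc (n+1))

theorem E_gen (n : ℕ) : C.h c hc 0 * C.h c hc (n+1) ∈ C.E c hc := Subgroup.subset_closure ⟨n, rfl⟩

theorem E_or (γ : Equiv.Perm ℍ) (hγ : γ ∈ C.G c hc) : γ ∈ C.E c hc ∨ γ * C.h c hc 0 ∈ C.E c hc := by
  have key : ∀ γ j, (γ ∈ C.E c hc ∨ γ * C.h c hc 0 ∈ C.E c hc) →
      (γ * C.h c hc j ∈ C.E c hc ∨ γ * C.h c hc j * C.h c hc 0 ∈ C.E c hc) := by
    intro γ j h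
    cases j with
    | zero =>
      rcases h with h | h
      · right; rw [mul_assoc, h_mul_self, mul_one]; exact h
      · left; exact h
    | succ n =>
      rcases h with h | h
      · right
        have h1 := mul_mem h (inv_mem (E_gen C c hc n))
        rw [mul_inv_rev, h_inv, h_inv, ← mul_assoc] at h1
        exact h1
      · left
        have h1 := mul_mem h (E_gen C c hc n)
        rw [mul_assoc, ← mul_assoc (C.h c hc 0), h_mul_self, one_mul] at h1
        exact h1
  induction hγ using Subgroup.closure_induction_right with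
  | one => left; exact one_mem _
  | mul_right x hx y hy ih =>
    obtain ⟨j, rfl⟩ := hy
    exact key x j ih
  | mul_inv_cancel x hx y hy ih =>
    obtain ⟨j, rfl⟩ := hy
    rw [h_inv]
    exact key x j ih

/-- last letter -/
def lastL : ℕ → List ℕ → ℕ
  | k, [] => k
  | _, (j :: l) => lastL j l

theorem P_R (l : List ℕ) : ∀ k z, okl k l → C.R k z → C.R (lastL k l) (P C c hc l z) := by
  induction l with
  | nil => intro k z _ hz; exact hz
  | cons j l ih =>
    intro k z h hz
    refine ih j (C.h c hc j z) h.2 (h_out C c hc fun hcon => h.1 (Rc_disj C hcon (R_sub hz)))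

/-- a base point in the interior of the fundamental domain -/
noncomputable def oo : ℍ := ⟨⟨1, 1⟩, one_pos⟩

theorem oo_notRc (j : ℕ) : ¬ C.Rc j oo := by
  cases j with
  | zero =>
    show ¬ ((1:ℝ) ≤ 0)
    norm_num
  | succ n =>
    intro h
    have := Rc_slope C h
    have e1 : oo.re = 1 := rfl
    have e2 : oo.im = 1 := rfl
    rw [e1, e2] at this
    linarith

theorem P_oo {j : ℕ} {l : List ℕ} (h : redw (j :: l)) : C.R (lastL j l) (P C c hc (j :: l) oo) :=
  P_R C c hc l j _ h (h_out C c hc (oo_notRc C j))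

theorem lastL_mem (l : List ℕ) : ∀ k, lastL k l = k ∨ lastL k l ∈ l := by
  induction l with
  | nil => intro k; left; rfl
  | cons j l ih =>
    intro k
    right
    show lastL j l ∈ j :: l
    rcases ih j with h | h
    · rw [h]; exact List.mem_cons_self
    · exact List.mem_cons_of_mem _ h

/-- the group of words in the first letters -/
noncomputable def GN (N : ℕ) : Subgroup (Equiv.Perm ℍ) := Subgroup.closure (C.h c hc '' Set.Iic N)

theorem surjN (N : ℕ) (γ : Equiv.Perm ℍ) (hγ : γ ∈ GN C c hc N) :
    ∃ l, redw l ∧ (∀ j ∈ l, j ≤ N) ∧ γ = P C c hc l := by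
  have key : ∀ γ j, j ≤ N → (∃ l, redw l ∧ (∀ j ∈ l, j ≤ N) ∧ γ = P C c hc l) →
      ∃ l, redw l ∧ (∀ j ∈ l, j ≤ N) ∧ γ * C.h c hc j = P C c hc l := by
    rintro γ j hjN ⟨l, hl, hlN, rfl⟩
    cases l with
    | nil => exact ⟨[j], trivial, by simpa using hjN, rfl⟩
    | cons i l =>
      by_cases hij : i = j
      · subst hij
        refine ⟨l, redw_tail hl, fun k hk => hlN k (List.mem_cons_of_mem _ hk), ?_⟩
        show P C c hc l * C.h c hc i * C.h c hc i = P C c hc l
        rw [mul_assoc, h_mul_self, mul_one]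
      · refine ⟨j :: i :: l, ⟨hij, hl⟩, fun k hk => ?_, rfl⟩
        rcases List.mem_cons.1 hk with rfl | hk
        · exact hjN
        · exact hlN k hk
  induction hγ using Subgroup.closure_induction_right with
  | one => exact ⟨[], trivial, by simp, rfl⟩
  | mul_right x hx y hy ih =>
    obtain ⟨j, hj, rfl⟩ := hy
    exact key x j hj ih
  | mul_inv_cancel x hx y hy ih =>
    obtain ⟨j, hj, rfl⟩ := hy
    rw [h_inv]
    exact key x j hj ih

theorem not_mem_GN (N : ℕ) : C.h c hc (N+1) ∉ GN C c hc N := by
  intro h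
  obtain ⟨l, hl, hlN, e⟩ := surjN C c hc N _ h
  have h1 : C.R (N+1) (C.h c hc (N+1) oo) := h_out C c hc (oo_notRc C _)
  rw [e] at h1
  cases l with
  | nil => exact oo_notRc C _ (R_sub h1)
  | cons j l =>
    have h2 := Rc_disj C (R_sub h1) (R_sub (P_oo C c hc hl))
    have h3 : lastL j l ≤ N := by
      rcases lastL_mem l j with h4 | h4
      · rw [h4]; exact hlN j List.mem_cons_self
      · exact hlN _ (List.mem_cons_of_mem _ h4)
    omega

theorem GN_mono {N M : ℕ} (h : N ≤ M) : GN C c hc N ≤ GN C c hc M :=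
  Subgroup.closure_mono (Set.image_mono (Set.Iic_subset_Iic.2 h))

theorem E_GN (γ : Equiv.Perm ℍ) (hγ : γ ∈ C.E c hc) : ∃ N, γ ∈ GN C c hc N := by
  induction hγ using Subgroup.closure_induction with
  | mem x hx =>
    obtain ⟨n, rfl⟩ := hx
    refine ⟨n + 1, mul_mem ?_ ?_⟩
    · exact Subgroup.subset_closure ⟨0, by simp, rfl⟩
    · exact Subgroup.subset_closure ⟨n + 1, by simp, rfl⟩
  | one => exact ⟨0, one_mem _⟩
  | mul x y _ _ ihx ihy =>
    obtain ⟨N, hN⟩ := ihx
    obtain ⟨M, hM⟩ := ihy
    exact ⟨max N M, mul_mem (GN_mono C c hc (le_max_left _ _) hN) (GN_mono C c hc (le_max_right _ _) hM)⟩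
  | inv x _ ih =>
    obtain ⟨N, hN⟩ := ih
    exact ⟨N, inv_mem hN⟩

/-- the group is infinitely generated -/
theorem E_not_fg : ¬ (C.E c hc).FG := by
  rintro ⟨S, hS⟩
  have h1 : ∀ s ∈ S, ∃ N, s ∈ GN C c hc N := fun s hs =>
    E_GN C c hc s (by rw [← hS]; exact Subgroup.subset_closure hs)
  choose! N hN using h1
  have h2 : C.E c hc ≤ GN C c hc (S.sup N) := by
    rw [← hS, Subgroup.closure_le]
    intro s hs
    exact GN_mono C c hc (Finset.le_sup (f := N) hs) (hN s hs)
  have h3 := h2 (E_gen C c hc (S.sup N))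
  have h4 : C.h c hc 0 ∈ GN C c hc (S.sup N) := Subgroup.subset_closure ⟨0, by simp, rfl⟩
  have h5 := mul_mem h4 h3
  rw [← mul_assoc, h_mul_self, one_mul] at h5
  exact not_mem_GN C c hc _ h5

/-- even reduced words -/
theorem surjE (γ : Equiv.Perm ℍ) (hγ : γ ∈ C.E c hc) : ∃ l, redw l ∧ Even l.length ∧ γ = P C c hc l := by
  have key : ∀ γ j (p : ℕ), (∃ l, redw l ∧ Even (l.length + p) ∧ γ = P C c hc l) →
      ∃ l, redw l ∧ Even (l.length + (p + 1)) ∧ γ * C.h c hc j = P C c hc l := by
    rintro γ j p ⟨l, hl, hp, rfl⟩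
    cases l with
    | nil =>
      refine ⟨[j], trivial, ?_, rfl⟩
      simp only [List.length_nil, List.length_cons, Nat.even_iff] at hp ⊢
      omega
    | cons i l =>
      by_cases hij : i = j
      · subst hij
        refine ⟨l, redw_tail hl, ?_, ?_⟩
        · simp only [List.length_cons, Nat.even_iff] at hp ⊢
          omega
        show P C c hc l * C.h c hc i * C.h c hc i = P C c hc l
        rw [mul_assoc, h_mul_self, mul_one]
      · refine ⟨j :: i :: l, ⟨hij, hl⟩, ?_, rfl⟩
        simp only [List.length_cons, Nat.even_iff] at hp ⊢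
        omega
  have key2 : ∀ γ i j, (∃ l, redw l ∧ Even l.length ∧ γ = P C c hc l) →
      ∃ l, redw l ∧ Even l.length ∧ γ * C.h c hc i * C.h c hc j = P C c hc l := by
    intro γ i j h
    obtain ⟨l, h1, h2, h3⟩ := key _ j 1 (key γ i 0 h)
    refine ⟨l, h1, ?_, h3⟩
    rw [Nat.even_iff] at h2 ⊢
    omega
  induction hγ using Subgroup.closure_induction_right with
  | one => exact ⟨[], trivial, by simp, rfl⟩
  | mul_right x hx y hy ih =>
    obtain ⟨n, rfl⟩ := hy
    rw [← mul_assoc]
    exact key2 x _ _ ih
  | mul_inv_cancel x hx y hy ih =>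
    obtain ⟨n, rfl⟩ := hy
    rw [mul_inv_rev, h_inv, h_inv, ← mul_assoc]
    exact key2 x _ _ ih

theorem P_append (l l' : List ℕ) : P C c hc (l ++ l') = P C c hc l' * P C c hc l := by
  induction l with
  | nil => simp [P]
  | cons j l ih => simp only [List.cons_append, P, ih, mul_assoc]

theorem okl_append {l l' : List ℕ} : ∀ {k : ℕ}, okl k (l ++ l') → okl k l := by
  induction l with
  | nil => intro k _; trivial
  | cons j l ih => intro k h; exact ⟨h.1, ih h.2⟩

theorem okl_redw {k : ℕ} {l : List ℕ} (h : okl k l) : redw l := by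
  cases l with
  | nil => trivial
  | cons j l => exact h.2

theorem lastL_append (l : List ℕ) (k j : ℕ) : lastL j (l ++ [k]) = k := by
  induction l generalizing j with
  | nil => rfl
  | cons i l ih => exact ih i

theorem tf_aux (m : ℕ) : ∀ l, redw l → l.length = 2 * m → ∀ n, 0 < n → (P C c hc l) ^ n = 1 → P C c hc l = 1 := by
  induction m with
  | zero =>
    intro l _ hl n _ _
    have : l = [] := List.length_eq_zero_iff.1 (by omega)
    rw [this]; rfl
  | succ m ih =>
    intro l hl hlen n hn hpow
    obtain ⟨j, l', rfl⟩ : ∃ j l', l = j :: l' := by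
      cases l with
      | nil => simp at hlen
      | cons j l' => exact ⟨j, l', rfl⟩
    rcases List.eq_nil_or_concat l' with h | ⟨l'', k, h⟩
    · rw [h] at hlen; simp at hlen; omega
    rw [List.concat_eq_append] at h
    rw [h] at hl hlen hpow ⊢
    by_cases hjk : j = k
    · subst hjk
      have e : P C c hc (j :: (l'' ++ [j])) = C.h c hc j * P C c hc l'' * C.h c hc j := by
        show P C c hc (l'' ++ [j]) * C.h c hc j = _
        rw [P_append]; simp [P]
      have h1 : (P C c hc l'') ^ n = 1 := by
        rw [e] at hpow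
        have h2 : ∀ n : ℕ, (C.h c hc j * P C c hc l'' * C.h c hc j) ^ n = C.h c hc j * (P C c hc l'') ^ n * C.h c hc j := by
          intro n
          induction n with
          | zero => rw [pow_zero, pow_zero, mul_one, h_mul_self]
          | succ n ih =>
            rw [pow_succ, ih, pow_succ]
            have := h_mul_self C c hc j
            calc C.h c hc j * P C c hc l'' ^ n * C.h c hc j * (C.h c hc j * P C c hc l'' * C.h c hc j)
                = C.h c hc j * P C c hc l'' ^ n * (C.h c hc j * C.h c hc j) * P C c hc l'' * C.h c hc j := by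
                  simp only [mul_assoc]
              _ = _ := by rw [this, mul_one]; simp only [mul_assoc]
        rw [h2] at hpow
        calc (P C c hc l'') ^ n = (C.h c hc j * C.h c hc j) * (P C c hc l'') ^ n * (C.h c hc j * C.h c hc j) := by
              rw [h_mul_self]; simp
          _ = C.h c hc j * (C.h c hc j * (P C c hc l'') ^ n * C.h c hc j) * C.h c hc j := by simp only [mul_assoc]
          _ = 1 := by rw [hpow, mul_one, h_mul_self]
      have h3 : redw l'' := okl_redw (okl_append (k := j) hl)
      have h4 : l''.length = 2 * m := by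
        simp only [List.length_cons, List.length_append, List.length_nil] at hlen
        omega
      rw [e, ih l'' h3 h4 n hn h1, mul_one, h_mul_self]
    · exfalso
      have h1 : C.R k (P C c hc (j :: (l'' ++ [k])) oo) := by
        have := P_oo C c hc hl
        rwa [lastL_append] at this
      have h2 : ∀ z, C.R k z → C.R k (P C c hc (j :: (l'' ++ [k])) z) := by
        intro z hz
        have := P_R C c hc (j :: (l'' ++ [k])) k z ⟨hjk, hl⟩ hz
        have e : lastL k (j :: (l'' ++ [k])) = k := lastL_append l'' k j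
        rwa [e] at this
      have h3 : ∀ n, C.R k (((P C c hc (j :: (l'' ++ [k]))) ^ (n+1)) oo) := by
        intro n
        induction n with
        | zero => simpa using h1
        | succ n ih =>
          rw [pow_succ']
          exact h2 _ ih
      obtain ⟨n', rfl⟩ : ∃ n', n = n' + 1 := ⟨n - 1, by omega⟩
      have h4 := h3 n'
      rw [hpow] at h4
      exact oo_notRc C _ (R_sub h4)

/-- the group is torsion-free -/
theorem E_tf (γ : Equiv.Perm ℍ) (hγ : γ ∈ C.E c hc) (n : ℕ) (hn : 0 < n) (h : γ ^ n = 1) : γ = 1 := by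
  obtain ⟨l, h1, ⟨m, h2⟩, rfl⟩ := surjE C c hc γ hγ
  exact tf_aux C c hc m l h1 (by omega) n hn h

/-- words in two free generators -/
noncomputable def WW : List Bool → Equiv.Perm ℍ
  | [] => 1
  | (b :: l) => (C.h c hc 0 * C.h c hc (if b then 1 else 2)) * WW l

theorem WW_mem (l : List Bool) : WW C c hc l ∈ C.E c hc := by
  induction l with
  | nil => exact one_mem _
  | cons b l ih =>
    refine mul_mem ?_ ih
    cases b
    · exact E_gen C c hc 1
    · exact E_gen C c hc 0

theorem WW_oo (l : List Bool) : WW C c hc l oo = oo ∨ C.R 0 (WW C c hc l oo) := by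
  induction l with
  | nil => left; rfl
  | cons b l ih =>
    right
    show C.R 0 (C.h c hc 0 (C.h c hc (if b then 1 else 2) (WW C c hc l oo)))
    have hb : (if b then 1 else 2) ≠ 0 := by cases b <;> simp
    have h1 : ¬ C.Rc (if b then 1 else 2) (WW C c hc l oo) := by
      rcases ih with h | h
      · rw [h]; exact oo_notRc C _
      · intro hcon; exact hb (Rc_disj C hcon (R_sub h))
    have h2 := h_out C c hc h1
    exact h_out C c hc fun hcon => hb (Rc_disj C (R_sub h2) hcon)

theorem WW_cons_R (b : Bool) (l : List Bool) :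
    C.R (if b then 1 else 2) (C.h c hc 0 (WW C c hc (b :: l) oo)) := by
  show C.R (if b then 1 else 2) (C.h c hc 0 (C.h c hc 0 (C.h c hc (if b then 1 else 2) (WW C c hc l oo))))
  rw [h_invol]
  have hb : (if b then 1 else 2) ≠ 0 := by cases b <;> simp
  refine h_out C c hc ?_
  rcases WW_oo C c hc l with h | h
  · rw [h]; exact oo_notRc C _
  · intro hcon; exact hb (Rc_disj C hcon (R_sub h))

theorem WW_inj : Function.Injective (WW C c hc) := by
  intro l
  induction l with
  | nil =>
    intro l' h
    cases l' with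
    | nil => rfl
    | cons b l' =>
      exfalso
      have h1 := WW_cons_R C c hc b l'
      rw [← h] at h1
      have h2 : C.R 0 (C.h c hc 0 oo) := h_out C c hc (oo_notRc C 0)
      have h3 := Rc_disj C (R_sub h1) (R_sub h2)
      cases b <;> simp at h3
  | cons b l ih =>
    intro l' h
    cases l' with
    | nil =>
      exfalso
      have h1 := WW_cons_R C c hc b l
      rw [h] at h1
      have h2 : C.R 0 (C.h c hc 0 oo) := h_out C c hc (oo_notRc C 0)
      have h3 := Rc_disj C (R_sub h1) (R_sub h2)
      cases b <;> simp at h3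
    | cons b' l' =>
      have h1 := WW_cons_R C c hc b l
      have h2 := WW_cons_R C c hc b' l'
      rw [← h] at h2
      have h3 := Rc_disj C (R_sub h1) (R_sub h2)
      have hbb : b = b' := by cases b <;> cases b' <;> simp_all
      subst hbb
      have h4 : WW C c hc l = WW C c hc l' := mul_left_cancel h
      rw [ih h4]

theorem WW_dist {M : ℝ} (hM1 : dist I ((C.h c hc 0 * C.h c hc 1) I) ≤ M) (hM2 : dist I ((C.h c hc 0 * C.h c hc 2) I) ≤ M)
    (l : List Bool) : dist I (WW C c hc l I) ≤ l.length * M := by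
  induction l with
  | nil => simp [WW]
  | cons b l ih =>
    have h1 : dist I ((C.h c hc 0 * C.h c hc (if b then 1 else 2)) I) ≤ M := by
      cases b
      · exact hM2
      · exact hM1
    have h2 : dist ((C.h c hc 0 * C.h c hc (if b then 1 else 2)) I) (WW C c hc (b :: l) I) = dist I (WW C c hc l I) := by
      show dist (C.h c hc 0 (C.h c hc (if b then 1 else 2) I)) (C.h c hc 0 (C.h c hc (if b then 1 else 2) (WW C c hc l I))) = _
      rw [dist_h, dist_h]
    calc dist I (WW C c hc (b :: l) I)
        ≤ dist I ((C.h c hc 0 * C.h c hc (if b then 1 else 2)) I) +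
          dist ((C.h c hc 0 * C.h c hc (if b then 1 else 2)) I) (WW C c hc (b :: l) I) := dist_triangle _ _ _
      _ ≤ M + l.length * M := by rw [h2]; gcongr
      _ = ((b :: l).length : ℕ) * M := by rw [List.length_cons]; push_cast; ring

theorem not_summable_lists : ¬ Summable fun l : List Bool => (1/2 : ℝ) ^ l.length := by
  intro h
  have h1 : Summable fun p : (Σ n, Fin n → Bool) => (1/2:ℝ) ^ p.1 := by
    have h2 := ((List.equivSigmaTuple (α := Bool)).symm.summable_iff (f := fun l : List Bool => (1/2 : ℝ) ^ l.length)).2 h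
    refine h2.congr fun p => ?_
    show (1/2 : ℝ) ^ (List.ofFn p.2).length = (1/2) ^ p.1
    rw [List.length_ofFn]
  have h3 := h1.sigma
  have h4 : ∀ n : ℕ, ∑' f : Fin n → Bool, (1/2:ℝ) ^ n = 1 := by
    intro n
    rw [tsum_fintype, Finset.sum_const, nsmul_eq_mul]
    simp
  have h5 := h3.tendsto_atTop_zero
  simp only [h4] at h5
  exact one_ne_zero (tendsto_nhds_unique tendsto_const_nhds h5)

theorem lower {M : ℝ} (hM : 0 < M) (hM1 : dist I ((C.h c hc 0 * C.h c hc 1) I) ≤ M)
    (hM2 : dist I ((C.h c hc 0 * C.h c hc 2) I) ≤ M) {s : ℝ} (hs : 0 < s)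
    (hsum : Summable fun γ : C.E c hc => Real.exp (-s * dist I ((γ : Equiv.Perm ℍ) I))) : Real.log 2 / M ≤ s := by
  by_contra hcon
  push Not at hcon
  apply not_summable_lists
  have hinj : Function.Injective (fun l : List Bool => (⟨WW C c hc l, WW_mem C c hc l⟩ : C.E c hc)) := by
    intro a b hab
    exact WW_inj C c hc (congrArg Subtype.val hab)
  have h1 := hsum.comp_injective hinj
  refine Summable.of_nonneg_of_le (fun l => by positivity) (fun l => ?_) h1
  have h2 := WW_dist C c hc hM1 hM2 l
  show (1/2:ℝ) ^ l.length ≤ Real.exp (-s * dist I (WW C c hc l I))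
  have h3 : (1/2:ℝ) = Real.exp (-Real.log 2) := by
    rw [Real.exp_neg, Real.exp_log two_pos]; norm_num
  rw [h3, ← Real.exp_nat_mul, Real.exp_le_exp]
  rw [lt_div_iff₀ hM] at hcon
  have h4 : s * dist I (WW C c hc l I) ≤ l.length * (s * M) := by
    calc s * dist I (WW C c hc l I) ≤ s * (l.length * M) := by gcongr
      _ = _ := by ring
  have h5 : (l.length : ℝ) * (s * M) ≤ l.length * Real.log 2 := by gcongr
  linarith

end

end Pool.Agent.Helper889.QC
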