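import Mathlib
import Pool.Agent.Helper889.QC.Lyap

set_option autoImplicit false
set_option linter.unusedSectionVars false

namespace Pool.Agent.Helper889.QC

open Filter Topology UpperHalfPlane
open scoped MatrixGroups ENNReal ComplexConjugate

/-- weights of letters -/
noncomputable def vv (V0 V1 A : ℝ) : ℕ → ℝ
  | 0 => V0
  | 1 => V1
  | 2 => V1
  | (n+3) => A * 4 ^ (n + 2)

/-- the smallness relations of a configuration -/
structure Small (C : Cfg) (η : ℕ → ℝ) : Prop where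
  x0 : C.x 0 = 1
  x1 : C.x 1 = 2
  r0 : C.ρ 0 = 1/4
  r1 : C.ρ 1 = 1/4
  η0 : ∀ n, 0 < η n
  η1 : ∀ n, η n ≤ 1/2
  le : ∀ n, C.ρ (n+2) ≤ η n
  sep : ∀ k n, k < n + 2 → C.ρ (n+2) ≤ η n * (|C.x (n+2) - C.x k| - C.ρ k)

section
variable {C : Cfg} {η : ℕ → ℝ} (hC : Small C η) {c s θ V0 V1 A δ : ℝ}

theorem b_le_one {j k : ℕ} (hjk : j ≠ k) : C.b c (j+1) (k+1) ≤ 1 := by
  show (C.ρ j / (|C.x j - C.x k| - C.ρ k)) ^ 2 ≤ 1
  have h1 := C.disj j k hjk
  have h2 := C.pos j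
  have h3 : 0 < |C.x j - C.x k| - C.ρ k := by linarith
  have h4 : C.ρ j / (|C.x j - C.x k| - C.ρ k) ≤ 1 := by rw [div_le_one h3]; linarith
  have h5 : 0 ≤ C.ρ j / (|C.x j - C.x k| - C.ρ k) := by positivity
  nlinarith

include hC in
theorem b_small {k n : ℕ} (hk : k < n + 2) : C.b c (n+3) (k+1) ≤ η n := by
  show (C.ρ (n+2) / (|C.x (n+2) - C.x k| - C.ρ k)) ^ 2 ≤ η n
  have h1 := C.disj (n+2) k (by omega)
  have h2 := C.pos (n+2)
  have h3 : 0 < |C.x (n+2) - C.x k| - C.ρ k := by linarith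
  have h4 : C.ρ (n+2) / (|C.x (n+2) - C.x k| - C.ρ k) ≤ η n := by rw [div_le_iff₀ h3]; exact hC.sep k n hk
  have h5 : 0 ≤ C.ρ (n+2) / (|C.x (n+2) - C.x k| - C.ρ k) := by positivity
  have h6 := hC.η1 n
  nlinarith

include hC in
theorem b_small0 (n : ℕ) : C.b c (n+3) 0 ≤ η n := by
  show (C.ρ (n+2)) ^ 2 ≤ η n
  have h2 := C.pos (n+2)
  have h4 := hC.le n
  have h6 := hC.η1 n
  nlinarith

theorem geom_ofReal {δ : ℝ} (hδ : 0 < δ) : ∑' n : ℕ, ENNReal.ofReal (δ / 2 / 2 ^ n) = ENNReal.ofReal δ := by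
  have h1 := hasSum_geometric_two' δ
  rw [← ENNReal.ofReal_tsum_of_nonneg (fun n => by positivity) h1.summable, h1.tsum_eq]

theorem split3 (f : ℕ → ℝ≥0∞) : ∑' j, f j = f 0 + (f 1 + (f 2 + ∑' n, f (n+3))) := by
  rw [tsum_eq_zero_add' ENNReal.summable, tsum_eq_zero_add' ENNReal.summable, tsum_eq_zero_add' ENNReal.summable]

include hC in
theorem tail_term (hs : 0 < s) (hA : 0 < A) (hη : ∀ n, A * 4 ^ (n + 2) * η n ^ s ≤ δ / 2 / 2 ^ n) (k n : ℕ)
    (hk : k ≤ n + 2) : ENNReal.ofReal (vv V0 V1 A (n+3) * C.b c (n+3) k ^ s) ≤ ENNReal.ofReal (δ / 2 / 2 ^ n) := by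
  apply ENNReal.ofReal_le_ofReal
  refine le_trans ?_ (hη n)
  show A * 4 ^ (n+2) * C.b c (n+3) k ^ s ≤ _
  have hb : C.b c (n+3) k ≤ η n := by
    cases k with
    | zero => exact b_small0 hC n
    | succ k => exact b_small hC (by omega)
  have h0 := b_nonneg C c (n+3) k
  gcongr

theorem geom4 (m : ℕ) : ∑ n ∈ Finset.range m, (4:ℝ) ^ (n + 2) ≤ 4 ^ (m + 2) / 3 := by
  induction m with
  | zero => rw [Finset.range_zero, Finset.sum_empty]; positivity
  | succ m ih =>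
    rw [Finset.sum_range_succ]
    calc _ ≤ (4:ℝ) ^ (m + 2) / 3 + 4 ^ (m + 2) := by gcongr
      _ = 4 ^ (m + 1 + 2) / 3 := by ring

include hC in
/-- verification of the Lyapunov inequalities -/
theorem lyap_of (hs : 0 < s) (hθ : 1/2 ≤ θ) (hθ1 : θ < 1) (hV0 : 1 ≤ V0) (hV1 : 1 ≤ V1) (hA : 1 ≤ A) (hδ : 0 < δ)
    (hη : ∀ n, A * 4 ^ (n + 2) * η n ^ s ≤ δ / 2 / 2 ^ n)
    (H2 : 2 * (V1 * (1/16) ^ s) + δ ≤ θ * V0)
    (H3 : V0 * (1 / c ^ 2) ^ s + V1 * (1/9) ^ s + δ ≤ θ * V1)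
    (H4 : V0 * (1 / c ^ 2) ^ s + 2 * V1 + δ ≤ 8/3 * A) :
    Lyap C c s θ (V1 + δ) (vv V0 V1 A) := by
  have hA0 : 0 < A := by linarith
  have hc0 : 0 ≤ 1 / c ^ 2 := by positivity
  have hcs : 0 ≤ (1 / c ^ 2 : ℝ) ^ s := Real.rpow_nonneg hc0 s
  refine ⟨hs, by linarith, hθ1, by linarith, ?_, ?_, ?_⟩
  · intro j
    match j with
    | 0 => exact hV0
    | 1 => exact hV1
    | 2 => exact hV1
    | (n+3) =>
      show 1 ≤ A * 4 ^ (n+2)
      have : (1:ℝ) ≤ 4 ^ (n+2) := one_le_pow₀ (by norm_num)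
      nlinarith
  · intro k
    rw [split3]
    have tail : ∀ k, k ≤ 2 → ∑' n, (if n + 3 = k then 0 else ENNReal.ofReal (vv V0 V1 A (n+3) * C.b c (n+3) k ^ s)) ≤ ENNReal.ofReal δ := by
      intro k hk
      rw [← geom_ofReal hδ]
      refine ENNReal.tsum_le_tsum fun n => ?_
      rw [if_neg (by omega)]
      exact tail_term hC hs hA0 hη k n (by omega)
    match k with
    | 0 =>
      rw [if_pos rfl, if_neg (by norm_num), if_neg (by norm_num), zero_add]
      have e1 : C.b c 1 0 = 1/16 := by show (C.ρ 0) ^ 2 = _; rw [hC.r0]; norm_num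
      have e2 : C.b c 2 0 = 1/16 := by show (C.ρ 1) ^ 2 = _; rw [hC.r1]; norm_num
      rw [e1, e2]
      show ENNReal.ofReal (V1 * (1/16) ^ s) + (ENNReal.ofReal (V1 * (1/16) ^ s) + _) ≤ ENNReal.ofReal (θ * V0)
      refine (add_le_add_right (add_le_add_right (tail 0 (by norm_num)) _) _).trans ?_
      rw [← ENNReal.ofReal_add (by positivity) hδ.le, ← ENNReal.ofReal_add (by positivity) (by positivity)]
      apply ENNReal.ofReal_le_ofReal
      linarith
    | 1 =>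
      rw [if_neg (by norm_num), if_pos rfl, if_neg (by norm_num), zero_add]
      have e2 : C.b c 2 1 = 1/9 := by
        show (C.ρ 1 / (|C.x 1 - C.x 0| - C.ρ 0)) ^ 2 = _
        rw [hC.r1, hC.r0, hC.x0, hC.x1]; norm_num
      rw [e2]
      show ENNReal.ofReal (V0 * (1 / c ^ 2) ^ s) + (ENNReal.ofReal (V1 * (1/9) ^ s) + _) ≤ ENNReal.ofReal (θ * V1)
      refine (add_le_add_right (add_le_add_right (tail 1 (by norm_num)) _) _).trans ?_
      rw [← ENNReal.ofReal_add (by positivity) hδ.le, ← ENNReal.ofReal_add (by positivity) (by positivity)]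
      apply ENNReal.ofReal_le_ofReal
      linarith
    | 2 =>
      rw [if_neg (by norm_num), if_neg (by norm_num), if_pos rfl, zero_add]
      have e2 : C.b c 1 2 = 1/9 := by
        show (C.ρ 0 / (|C.x 0 - C.x 1| - C.ρ 1)) ^ 2 = _
        rw [hC.r1, hC.r0, hC.x0, hC.x1]; norm_num
      rw [e2]
      show ENNReal.ofReal (V0 * (1 / c ^ 2) ^ s) + (ENNReal.ofReal (V1 * (1/9) ^ s) + _) ≤ ENNReal.ofReal (θ * V1)
      refine (add_le_add_right (add_le_add_right (tail 2 (by norm_num)) _) _).trans ?_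
      rw [← ENNReal.ofReal_add (by positivity) hδ.le, ← ENNReal.ofReal_add (by positivity) (by positivity)]
      apply ENNReal.ofReal_le_ofReal
      linarith
    | (m+3) =>
      rw [if_neg (by omega), if_neg (by omega), if_neg (by omega)]
      have t1 : ENNReal.ofReal (vv V0 V1 A 1 * C.b c 1 (m+3) ^ s) ≤ ENNReal.ofReal V1 := by
        apply ENNReal.ofReal_le_ofReal
        show V1 * C.b c (0+1) (m+2+1) ^ s ≤ V1
        have h1 := Real.rpow_le_one (b_nonneg C c (0+1) (m+2+1)) (b_le_one (C := C) (c := c) (by omega : 0 ≠ m+2)) hs.le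
        nlinarith
      have t2 : ENNReal.ofReal (vv V0 V1 A 2 * C.b c 2 (m+3) ^ s) ≤ ENNReal.ofReal V1 := by
        apply ENNReal.ofReal_le_ofReal
        show V1 * C.b c (1+1) (m+2+1) ^ s ≤ V1
        have h1 := Real.rpow_le_one (b_nonneg C c (1+1) (m+2+1)) (b_le_one (C := C) (c := c) (by omega : 1 ≠ m+2)) hs.le
        nlinarith
      have t3 : ∑' n, (if n + 3 = m + 3 then 0 else ENNReal.ofReal (vv V0 V1 A (n+3) * C.b c (n+3) (m+3) ^ s))
          ≤ ENNReal.ofReal (A * (4 ^ (m+2) / 3)) + ENNReal.ofReal δ := by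
        have h1 : ∀ n, (if n + 3 = m + 3 then 0 else ENNReal.ofReal (vv V0 V1 A (n+3) * C.b c (n+3) (m+3) ^ s))
            ≤ (if n ∈ Finset.range m then ENNReal.ofReal (A * 4 ^ (n+2)) else 0) + ENNReal.ofReal (δ / 2 / 2 ^ n) := by
          intro n
          by_cases h : n + 3 = m + 3
          · rw [if_pos h]; exact zero_le
          · rw [if_neg h]
            by_cases h2 : n < m
            · rw [if_pos (Finset.mem_range.2 h2)]
              refine le_trans ?_ le_self_add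
              apply ENNReal.ofReal_le_ofReal
              show A * 4 ^ (n+2) * C.b c (n+2+1) (m+2+1) ^ s ≤ A * 4 ^ (n+2)
              have h3 := Real.rpow_le_one (b_nonneg C c (n+2+1) (m+2+1)) (b_le_one (C := C) (c := c) (by omega : n+2 ≠ m+2)) hs.le
              have h4 : 0 < A * 4 ^ (n+2) := by positivity
              nlinarith
            · refine le_trans ?_ le_add_self
              exact tail_term hC hs hA0 hη (m+3) n (by omega)
        refine (ENNReal.tsum_le_tsum h1).trans ?_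
        rw [ENNReal.tsum_add, geom_ofReal hδ]
        gcongr
        rw [tsum_eq_sum (s := Finset.range m) (fun n hn => if_neg hn), Finset.sum_congr rfl (fun n hn => if_pos hn),
          ← ENNReal.ofReal_sum_of_nonneg (fun n _ => by positivity), ← Finset.mul_sum]
        apply ENNReal.ofReal_le_ofReal
        gcongr
        exact geom4 m
      show ENNReal.ofReal (V0 * (1 / c ^ 2) ^ s) + (_ + (_ + _)) ≤ ENNReal.ofReal (θ * (A * 4 ^ (m+2)))
      refine (add_le_add_right (add_le_add t1 (add_le_add t2 t3)) _).trans ?_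
      have q1 : (0:ℝ) ≤ A * (4 ^ (m+2) / 3) := by positivity
      rw [← ENNReal.ofReal_add q1 hδ.le, ← ENNReal.ofReal_add (by linarith) (by positivity),
        ← ENNReal.ofReal_add (by linarith) (by positivity), ← ENNReal.ofReal_add (by positivity) (by positivity)]
      apply ENNReal.ofReal_le_ofReal
      have h16 : (16:ℝ) ≤ 4 ^ (m+2) := by
        have : (1:ℝ) ≤ 4 ^ m := one_le_pow₀ (by norm_num)
        rw [pow_add]; linarith
      have hA16 : A * 16 ≤ A * 4 ^ (m+2) := by gcongr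
      have hpos : 0 < A * 4 ^ (m+2) := by positivity
      have h5 : (1/2) * (A * 4 ^ (m+2)) ≤ θ * (A * 4 ^ (m+2)) := by gcongr
      linarith
  · intro n
    match n with
    | 0 =>
      show V1 * C.ρ 0 ^ s ≤ V1 + δ
      rw [hC.r0]
      have : (1/4 : ℝ) ^ s ≤ 1 := Real.rpow_le_one (by norm_num) (by norm_num) hs.le
      nlinarith
    | 1 =>
      show V1 * C.ρ 1 ^ s ≤ V1 + δ
      rw [hC.r1]
      have : (1/4 : ℝ) ^ s ≤ 1 := Real.rpow_le_one (by norm_num) (by norm_num) hs.le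
      nlinarith
    | (n+2) =>
      show A * 4 ^ (n+2) * C.ρ (n+2) ^ s ≤ V1 + δ
      have h1 : C.ρ (n+2) ^ s ≤ η n ^ s := Real.rpow_le_rpow (C.pos _).le (hC.le n) hs.le
      have h2 := hη n
      have h3 : δ / 2 / 2 ^ n ≤ δ := by
        have : (1:ℝ) ≤ 2 ^ n := one_le_pow₀ (by norm_num)
        rw [div_div, div_le_iff₀ (by positivity)]
        nlinarith
      calc A * 4 ^ (n+2) * C.ρ (n+2) ^ s ≤ A * 4 ^ (n+2) * η n ^ s := by gcongr
        _ ≤ V1 + δ := by linarith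

end

theorem small_rpow {s K : ℝ} (hs : 0 < s) (hK : 0 < K) : ∃ r > 0, ∀ t, 0 ≤ t → t ≤ r → t ^ s ≤ K := by
  refine ⟨K ^ (1 / s), Real.rpow_pos_of_pos hK _, fun t ht0 ht => ?_⟩
  calc t ^ s ≤ (K ^ (1 / s)) ^ s := Real.rpow_le_rpow ht0 ht hs.le
    _ = K := by rw [← Real.rpow_mul hK.le, one_div, inv_mul_cancel₀ hs.ne', Real.rpow_one]

/-- the configuration and both Lyapunov vectors -/
theorem exists_all {s₁ : ℝ} (hs₁ : 0 < s₁) : ∃ (C : Cfg) (c : ℝ), 0 < c ∧ C.x 0 = 1 ∧ C.x 1 = 2 ∧ C.ρ 0 = 1/4 ∧ C.ρ 1 = 1/4 ∧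
    (∃ θ B v, Lyap C 1 2 θ B v) ∧ (∃ θ B v, Lyap C c s₁ θ B v) := by
  set q : ℝ := (1/9) ^ s₁ with hq
  have hq0 : 0 < q := Real.rpow_pos_of_pos (by norm_num) _
  have hq1 : q < 1 := Real.rpow_lt_one (by norm_num) (by norm_num) hs₁
  -- the big constant
  obtain ⟨r, hr0, hr⟩ := small_rpow hs₁ (show 0 < (1 - q) / 24 by linarith)
  set c : ℝ := 1 / Real.sqrt (min r 1) with hc
  have hm0 : 0 < min r 1 := lt_min hr0 one_pos
  have hc0 : 0 < c := by have := Real.sqrt_pos.2 hm0; positivity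
  have hc2 : 1 / c ^ 2 = min r 1 := by
    rw [hc, div_pow, one_pow, Real.sq_sqrt hm0.le, one_div_one_div]
  have hcr : (1 / c ^ 2) ^ s₁ ≤ (1 - q) / 24 := by
    rw [hc2]; exact hr _ hm0.le (min_le_left _ _)
  -- smallness sequence
  have hA : ∀ n : ℕ, ∃ r > 0, ∀ t, 0 ≤ t → t ≤ r → t ^ (2:ℝ) ≤ (1/10 : ℝ) / 2 / 2 ^ n / (3 * 4 ^ (n+2)) := fun n =>
    small_rpow two_pos (by positivity)
  have hB : ∀ n : ℕ, ∃ r > 0, ∀ t, 0 ≤ t → t ≤ r → t ^ s₁ ≤ ((1 - q) / 4) / 2 / 2 ^ n / (4 * 4 ^ (n+2)) := fun n =>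
    small_rpow hs₁ (by have : 0 < 1 - q := by linarith
                       positivity)
  choose ra hra0 hra using hA
  choose rb hrb0 hrb using hB
  set η : ℕ → ℝ := fun n => min (min (ra n) (rb n)) (1 / (n + 2)) with hη
  have η0 : ∀ n, 0 < η n := fun n => lt_min (lt_min (hra0 n) (hrb0 n)) (by positivity)
  have η1 : ∀ n, η n ≤ 1 / (n + 2) := fun n => min_le_right _ _
  have η2 : ∀ n, η n ≤ 1/2 := fun n => (η1 n).trans (by
    apply one_div_le_one_div_of_le two_pos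
    have : (0:ℝ) ≤ n := Nat.cast_nonneg n
    linarith)
  have η3 : Tendsto η atTop (𝓝 0) := by
    refine squeeze_zero (fun n => (η0 n).le) η1 ?_
    have := tendsto_one_div_add_atTop_nhds_zero_nat (𝕜 := ℝ)
    have h2 := (tendsto_add_atTop_iff_nat 1).2 this
    refine h2.congr fun n => ?_
    push_cast; ring
  obtain ⟨C, x0, x1, r0, r1, hle, hsep⟩ := exists_cfg η η0 η2 η3
  have hC : Small C η := ⟨x0, x1, r0, r1, η0, η2, hle, hsep⟩
  refine ⟨C, c, hc0, x0, x1, r0, r1, ⟨1/2, 3 + 1/10, vv 1 3 3, ?_⟩, ⟨(1 + q)/2, 1 + (1-q)/4, vv 6 1 4, ?_⟩⟩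
  · refine lyap_of hC two_pos le_rfl (by norm_num) le_rfl (by norm_num) (by norm_num) (by norm_num) ?_ ?_ ?_ ?_
    · intro n
      have h1 := hra n (η n) (η0 n).le ((min_le_left _ _).trans (min_le_left _ _))
      rw [le_div_iff₀ (by positivity)] at h1
      linarith
    · norm_num
    · norm_num
    · norm_num
  · have hq2 : 0 < 1 - q := by linarith
    refine lyap_of hC hs₁ (by linarith) (by linarith) (by norm_num) le_rfl (by norm_num) (by positivity) ?_ ?_ ?_ ?_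
    · intro n
      have h1 := hrb n (η n) (η0 n).le ((min_le_left _ _).trans (min_le_right _ _))
      rw [le_div_iff₀ (by positivity)] at h1
      linarith
    · have : (1/16 : ℝ) ^ s₁ ≤ 1 := Real.rpow_le_one (by norm_num) (by norm_num) hs₁.le
      nlinarith
    · rw [← hq]; nlinarith
    · nlinarith

end Pool.Agent.Helper889.QC
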