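import Mathlib
import Pool.Agent.Helper889.QC.Conj
import Pool.Agent.Helper889.QC.Lim

set_option autoImplicit false
set_option linter.unusedSectionVars false

namespace Pool.Agent.Helper889.QC

open Filter Topology UpperHalfPlane
open scoped MatrixGroups ENNReal ComplexConjugate ContDiff

/-- a self-map of `ℍ` read as a map of `ℂ` (on the upper half-plane) -/
noncomputable def ext (f : ℍ → ℍ) (u : ℂ) : ℂ := (f (ofComplex u) : ℍ)

theorem ext_coe (f : ℍ → ℍ) (z : ℍ) : ext f z = f z := by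
  unfold ext; rw [ofComplex_apply]

theorem ext_comp (f g : ℍ → ℍ) : ext (f ∘ g) = ext f ∘ ext g := by
  funext u
  show ((f (g (ofComplex u)) : ℍ) : ℂ) = ((f (ofComplex ((g (ofComplex u) : ℍ) : ℂ)) : ℍ) : ℂ)
  rw [ofComplex_apply]

theorem ev_coe {z : ℍ} {p : ℂ → Prop} : (∀ᶠ u in 𝓝 (z : ℂ), p u) ↔ ∀ᶠ z' in 𝓝 z, p (z' : ℍ) := by
  rw [← isOpenEmbedding_coe.map_nhds_eq z, eventually_map]

theorem ext_congr {f g : ℍ → ℍ} {z : ℍ} (h : ∀ᶠ z' in 𝓝 z, f z' = g z') : ext f =ᶠ[𝓝 (z : ℂ)] ext g := by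
  rw [Filter.EventuallyEq, ev_coe]
  filter_upwards [h] with z' hz'
  rw [ext_coe, ext_coe, hz']

/-- dilatation inequality at a point: `‖∂̄ f‖ ≤ k ‖∂ f‖` -/
def Dil (k : ℝ) (f : ℂ → ℂ) (u : ℂ) : Prop :=
  ‖fderiv ℝ f u 1 + Complex.I * fderiv ℝ f u Complex.I‖ ≤ k * ‖fderiv ℝ f u 1 - Complex.I * fderiv ℝ f u Complex.I‖

theorem lin_decomp (L : ℂ →L[ℝ] ℂ) (m : ℂ) : L m = m.re * L 1 + m.im * L Complex.I := by
  have h : m = m.re • (1:ℂ) + m.im • Complex.I := by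
    rw [Complex.real_smul, Complex.real_smul, mul_one]
    exact (Complex.re_add_im m).symm
  conv_lhs => rw [h]
  rw [map_add, map_smul, map_smul, Complex.real_smul, Complex.real_smul]

theorem Dil_comp {k : ℝ} {L : ℂ →L[ℝ] ℂ} (m m' : ℂ)
    (h : ‖L 1 + Complex.I * L Complex.I‖ ≤ k * ‖L 1 - Complex.I * L Complex.I‖) :
    ‖m' * L (m * 1) + Complex.I * (m' * L (m * Complex.I))‖ ≤ k * ‖m' * L (m * 1) - Complex.I * (m' * L (m * Complex.I))‖ := by
  have e1 : L (m * 1) = m.re * L 1 + m.im * L Complex.I := by rw [mul_one]; exact lin_decomp L m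
  have e2 : L (m * Complex.I) = -m.im * L 1 + m.re * L Complex.I := by
    rw [lin_decomp L (m * Complex.I)]
    simp [Complex.mul_re, Complex.mul_im]
  have h1 : m' * L (m * 1) + Complex.I * (m' * L (m * Complex.I)) = m' * conj m * (L 1 + Complex.I * L Complex.I) := by
    rw [e1, e2]
    have : conj m = m.re - m.im * Complex.I := by
      apply Complex.ext <;> simp
    rw [this]
    linear_combination (m' * m.im * L Complex.I) * Complex.I_mul_I
  have h2 : m' * L (m * 1) - Complex.I * (m' * L (m * Complex.I)) = m' * m * (L 1 - Complex.I * L Complex.I) := by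
    rw [e1, e2]
    have : m = m.re + m.im * Complex.I := (Complex.re_add_im m).symm
    conv_rhs => rw [this]
    linear_combination (m' * m.im * L Complex.I) * Complex.I_mul_I
  rw [h1, h2, norm_mul, norm_mul, norm_mul, norm_mul, Complex.norm_conj]
  calc ‖m'‖ * ‖m‖ * ‖L 1 + Complex.I * L Complex.I‖ ≤ ‖m'‖ * ‖m‖ * (k * ‖L 1 - Complex.I * L Complex.I‖) := by gcongr
    _ = _ := by ring

section
variable (C : Cfg) (c : ℝ) (hc : 0 < c) (c' : ℝ) (hc' : 0 < c')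

theorem ext_h_ev (j : ℕ) (z : ℍ) : ext (C.h c hc j) =ᶠ[𝓝 (z : ℂ)] fun u => (C.pol j : ℂ) - C.qq c j / (u - C.pol j) := by
  rw [Filter.EventuallyEq, ev_coe]
  filter_upwards with z'
  rw [ext_coe, coe_h]

theorem hasDeriv_h (j : ℕ) (z : ℍ) :
    HasDerivAt (fun u : ℂ => (C.pol j : ℂ) - C.qq c j / (u - C.pol j)) (C.qq c j / ((z : ℂ) - C.pol j) ^ 2) (z : ℂ) := by
  have h0 : (z : ℂ) - C.pol j ≠ 0 := sub_ne_zero.2 (UpperHalfPlane.ne_ofReal z _)
  have h1 : HasDerivAt (fun u : ℂ => u - C.pol j) 1 (z : ℂ) := (hasDerivAt_id _).sub_const _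
  have h2 := ((hasDerivAt_const (z : ℂ) (C.qq c j : ℂ)).div h1 h0).const_sub (C.pol j : ℂ)
  refine h2.congr_deriv ?_
  ring

theorem sm_h (j : ℕ) (z : ℍ) : ContDiffAt ℝ ∞ (ext (C.h c hc j)) z := by
  have h0 : (z : ℂ) - C.pol j ≠ 0 := sub_ne_zero.2 (UpperHalfPlane.ne_ofReal z _)
  refine ContDiffAt.congr_of_eventuallyEq ?_ (ext_h_ev C c hc j z)
  have h1 : ContDiffAt ℂ ∞ (fun u : ℂ => (C.pol j : ℂ) - C.qq c j / (u - C.pol j)) (z : ℂ) :=
    contDiffAt_const.sub (contDiffAt_const.div (contDiffAt_id.sub contDiffAt_const) h0)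
  exact h1.restrict_scalars ℝ

theorem fd_h (j : ℕ) (z : ℍ) (v : ℂ) :
    fderiv ℝ (ext (C.h c hc j)) z v = (C.qq c j / ((z : ℂ) - C.pol j) ^ 2) * v := by
  rw [(ext_h_ev C c hc j z).fderiv_eq]
  have h1 := (hasDeriv_h C c j z).hasFDerivAt.restrictScalars ℝ
  rw [h1.fderiv]
  simp [mul_comm]

variable {F : ℝ → ℝ} {lam : ℝ} (hP : Prof F lam) (hlam : lam = c' / c)
variable (hR : ∀ z, ∃ m, Red C c hc m z) (hR' : ∀ z, ∃ m, Red C c' hc' m z)

theorem ext_S_ev (z : ℍ) : ext (Sc F hP.pos) =ᶠ[𝓝 (z : ℂ)] fun u => (F (u.re * (u.im)⁻¹)) • u := by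
  rw [Filter.EventuallyEq, ev_coe]
  filter_upwards with z'
  rw [ext_coe, coe_Sc, Complex.real_smul]
  rfl

theorem sm_S (hF : ContDiff ℝ ∞ F) (z : ℍ) : ContDiffAt ℝ ∞ (ext (Sc F hP.pos)) z := by
  refine ContDiffAt.congr_of_eventuallyEq ?_ (ext_S_ev hP z)
  have h0 : (z : ℂ).im ≠ 0 := z.im_ne_zero
  have h1 : ContDiffAt ℝ ∞ (fun u : ℂ => u.re * (u.im)⁻¹) (z : ℂ) :=
    (Complex.reCLM.contDiff.contDiffAt).mul ((Complex.imCLM.contDiff.contDiffAt).inv h0)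
  exact (hF.contDiffAt.comp _ h1).smul contDiffAt_id

theorem fd_S (hF : ContDiff ℝ ∞ F) (z : ℍ) (v : ℂ) :
    fderiv ℝ (ext (Sc F hP.pos)) z v = (F (slp z) : ℂ) * v +
      ((deriv F (slp z) * (v.re * z.im⁻¹ - z.re * v.im * (z.im ^ 2)⁻¹) : ℝ) : ℂ) * z := by
  rw [(ext_S_ev hP z).fderiv_eq]
  have h0 : (z : ℂ).im ≠ 0 := z.im_ne_zero
  have h1 : HasFDerivAt (fun u : ℂ => u.re) Complex.reCLM (z : ℂ) := Complex.reCLM.hasFDerivAt
  have h2 : HasFDerivAt (fun u : ℂ => u.im) Complex.imCLM (z : ℂ) := Complex.imCLM.hasFDerivAt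
  have h3 := (hasDerivAt_inv h0).comp_hasFDerivAt (z : ℂ) h2
  have h4 := h1.mul h3
  have hd : DifferentiableAt ℝ F ((z : ℂ).re * ((z : ℂ).im)⁻¹) := (hF.differentiable (by simp)).differentiableAt
  have h5 := hd.hasDerivAt.comp_hasFDerivAt (z : ℂ) h4
  have h6 := h5.smul (hasFDerivAt_id (z : ℂ))
  have h7 : HasFDerivAt (fun u : ℂ => (F (u.re * (u.im)⁻¹)) • u)
      ((F (slp z)) • ContinuousLinearMap.id ℝ ℂ + (deriv F (slp z) • ((z:ℂ).re • -((z:ℂ).im ^ 2)⁻¹ • Complex.imCLM +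
        ((z:ℂ).im)⁻¹ • Complex.reCLM)).smulRight (z:ℂ)) (z : ℂ) := h6
  rw [h7.fderiv]
  simp only [add_apply, smul_apply, ContinuousLinearMap.smulRight_apply,
    Complex.reCLM_apply, Complex.imCLM_apply, smul_eq_mul, ContinuousLinearMap.id_apply,
    Complex.real_smul, UpperHalfPlane.coe_re, UpperHalfPlane.coe_im]
  push_cast
  ring

/-- the dilatation of `S` -/
theorem dil_S (hF : ContDiff ℝ ∞ F) {f0 Q : ℝ} (hf0 : 0 < f0) (hf : ∀ t, f0 ≤ F t)
    (hQ : ∀ t, |deriv F t| * (1 + t ^ 2) ≤ Q) (z : ℍ) :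
    Dil (Q / Real.sqrt (4 * f0 ^ 2 + Q ^ 2)) (ext (Sc F hP.pos)) z := by
  unfold Dil
  rw [fd_S hP hF z 1, fd_S hP hF z Complex.I]
  set t := slp z with ht
  set x := z.re with hx
  set y := z.im with hy
  have hy0 : 0 < y := z.im_pos
  have hz : (z : ℂ) = x + y * Complex.I := (Complex.re_add_im (z : ℂ)).symm
  have hyc : (y : ℂ) ≠ 0 := by exact_mod_cast hy0.ne'
  have ht2 : t = x / y := rfl
  set f := F t with hf'
  set g := deriv F t with hg
  have e1 : (f : ℂ) * 1 + ((g * ((1 : ℂ).re * y⁻¹ - x * (1:ℂ).im * (y ^ 2)⁻¹) : ℝ) : ℂ) * z +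
      Complex.I * ((f : ℂ) * Complex.I + ((g * (Complex.I.re * y⁻¹ - x * Complex.I.im * (y ^ 2)⁻¹) : ℝ) : ℂ) * z)
      = -Complex.I * g * ((z : ℂ) / y) ^ 2 := by
    simp only [Complex.one_re, Complex.one_im, Complex.I_re, Complex.I_im]
    push_cast
    rw [hz]
    field_simp
    ring_nf
    simp only [Complex.I_sq, show Complex.I ^ 3 = -Complex.I by rw [pow_succ, Complex.I_sq]; ring]
    ring
  have e2 : (f : ℂ) * 1 + ((g * ((1 : ℂ).re * y⁻¹ - x * (1:ℂ).im * (y ^ 2)⁻¹) : ℝ) : ℂ) * z -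
      Complex.I * ((f : ℂ) * Complex.I + ((g * (Complex.I.re * y⁻¹ - x * Complex.I.im * (y ^ 2)⁻¹) : ℝ) : ℂ) * z)
      = ((2 * f : ℝ) : ℂ) + ((g * (1 + t ^ 2) : ℝ) : ℂ) * Complex.I := by
    simp only [Complex.one_re, Complex.one_im, Complex.I_re, Complex.I_im]
    rw [ht2]
    push_cast
    rw [hz]
    field_simp
    ring_nf
    simp only [Complex.I_sq, show Complex.I ^ 3 = -Complex.I by rw [pow_succ, Complex.I_sq]; ring]
    ring
  rw [e1, e2]
  have n1 : ‖-Complex.I * g * ((z : ℂ) / y) ^ 2‖ = |g| * (1 + t ^ 2) := by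
    rw [norm_mul, norm_mul, norm_neg, Complex.norm_I, one_mul, Complex.norm_real, Real.norm_eq_abs, norm_pow, norm_div,
      Complex.norm_real, Real.norm_of_nonneg hy0.le, div_pow, ← Complex.normSq_eq_norm_sq, Complex.normSq_apply,
      UpperHalfPlane.coe_re, UpperHalfPlane.coe_im, ht2]
    field_simp
    ring
  have n2 : ‖((2 * f : ℝ) : ℂ) + ((g * (1 + t ^ 2) : ℝ) : ℂ) * Complex.I‖ = Real.sqrt (4 * f ^ 2 + (|g| * (1 + t ^ 2)) ^ 2) := by
    rw [Complex.norm_add_mul_I]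
    congr 1
    rw [mul_pow, mul_pow, mul_pow, sq_abs]; ring
  rw [n1, n2]
  set q := |g| * (1 + t ^ 2) with hq
  have hq0 : 0 ≤ q := by positivity
  have hqQ : q ≤ Q := hQ t
  have hQ0 : 0 ≤ Q := hq0.trans hqQ
  have hff : f0 ≤ f := hf t
  have hA : 0 < 4 * f0 ^ 2 + Q ^ 2 := by positivity
  have hB : 0 < 4 * f ^ 2 + q ^ 2 := by
    have : 0 < f := lt_of_lt_of_le hf0 hff
    positivity
  clear_value q
  rw [div_mul_eq_mul_div, le_div_iff₀ (Real.sqrt_pos.2 hA)]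
  apply le_of_sq_le_sq _ (by positivity)
  rw [mul_pow, mul_pow, Real.sq_sqrt hA.le, Real.sq_sqrt hB.le]
  have h1 : q ^ 2 ≤ Q ^ 2 := pow_le_pow_left₀ hq0 hqQ 2
  have h2 : f0 ^ 2 ≤ f ^ 2 := pow_le_pow_left₀ hf0.le hff 2
  nlinarith [mul_le_mul h1 h2 (by positivity) (by positivity)]

include hlam hR in
theorem ww_comp (j : ℕ) : ww C c hc c' hc' (Sc F hP.pos)
    = (C.h c' hc' j) ∘ (ww C c hc c' hc' (Sc F hP.pos)) ∘ (C.h c hc j) := by
  funext z
  show _ = C.h c' hc' j (ww C c hc c' hc' (Sc F hP.pos) (C.h c hc j z))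
  rw [ww_equiv C c hc c' hc' hP hlam hR, h_invol]

include hlam hR in
theorem sm_ww (hF : ContDiff ℝ ∞ F) (z : ℍ) : ContDiffAt ℝ ∞ (ext (ww C c hc c' hc' (Sc F hP.pos))) z := by
  obtain ⟨m, hm⟩ := hR z
  induction hm with
  | zero z hD =>
    exact (sm_S hP hF z).congr_of_eventuallyEq (ext_congr (ww_local C c hc c' hc' hP hlam hR hD))
  | succ n z j hj _ ih =>
    rw [ww_comp C c hc c' hc' hP hlam hR j, ext_comp, ext_comp]
    have h1 := sm_h C c hc j z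
    have h2 : ContDiffAt ℝ ∞ (ext (ww C c hc c' hc' (Sc F hP.pos))) (ext (C.h c hc j) z) := by
      rw [ext_coe]; exact ih
    have h3 := h2.comp (z : ℂ) h1
    have h4 : ContDiffAt ℝ ∞ (ext (C.h c' hc' j)) ((ext (ww C c hc c' hc' (Sc F hP.pos)) ∘ ext (C.h c hc j)) z) := by
      rw [Function.comp, ext_coe, ext_coe]; exact sm_h C c' hc' j _
    exact h4.comp (z : ℂ) h3

include hlam hR in
theorem dil_ww (hF : ContDiff ℝ ∞ F) {k : ℝ} (hk : ∀ z : ℍ, Dil k (ext (Sc F hP.pos)) z) (z : ℍ) :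
    Dil k (ext (ww C c hc c' hc' (Sc F hP.pos))) z := by
  obtain ⟨m, hm⟩ := hR z
  induction hm with
  | zero z hD =>
    unfold Dil
    rw [(ext_congr (ww_local C c hc c' hc' hP hlam hR hD)).fderiv_eq]
    exact hk z
  | succ n z j hj _ ih =>
    have h1 : DifferentiableAt ℝ (ext (C.h c hc j)) z := (sm_h C c hc j z).differentiableAt (by simp)
    have h2 : DifferentiableAt ℝ (ext (ww C c hc c' hc' (Sc F hP.pos))) (ext (C.h c hc j) z) := by
      rw [ext_coe]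
      exact (sm_ww C c hc c' hc' hP hlam hR hF _).differentiableAt (by simp)
    have h3 : DifferentiableAt ℝ (ext (C.h c' hc' j)) ((ext (ww C c hc c' hc' (Sc F hP.pos)) ∘ ext (C.h c hc j)) z) := by
      rw [Function.comp, ext_coe, ext_coe]; exact (sm_h C c' hc' j _).differentiableAt (by simp)
    have h4 := h3.hasFDerivAt.comp (z : ℂ) (h2.hasFDerivAt.comp (z : ℂ) h1.hasFDerivAt)
    have hE : ext (ww C c hc c' hc' (Sc F hP.pos)) = ext (C.h c' hc' j) ∘ ext (ww C c hc c' hc' (Sc F hP.pos)) ∘ ext (C.h c hc j) := by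
      rw [← ext_comp, ← ext_comp, ← ww_comp C c hc c' hc' hP hlam hR j]
    have h5 := (h4.congr_of_eventuallyEq (f₁ := ext (ww C c hc c' hc' (Sc F hP.pos)))
      (Filter.Eventually.of_forall fun u => congrFun hE u)).fderiv
    unfold Dil at ih ⊢
    rw [h5]
    simp only [ContinuousLinearMap.comp_apply]
    rw [fd_h, fd_h]
    have h6 : (ext (ww C c hc c' hc' (Sc F hP.pos)) ∘ ext (C.h c hc j)) z
        = ((ww C c hc c' hc' (Sc F hP.pos) (C.h c hc j z) : ℍ) : ℂ) := by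
      rw [Function.comp, ext_coe, ext_coe]
    rw [h6, fd_h, fd_h, ext_coe]
    exact Dil_comp _ _ ih

end

end Pool.Agent.Helper889.QC
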