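import Mathlib
import Pool.Agent.Helper889.QC.Par
import Pool.Agent.Helper889.QC.Low
import Pool.Agent.Helper889.QC.Smooth

set_option autoImplicit false
set_option linter.unusedSectionVars false

namespace Pool.Agent.Helper889.QC

open Filter Topology UpperHalfPlane
open scoped MatrixGroups ENNReal ComplexConjugate ContDiff

theorem ker_sub (g : SL(2, ℝ)) (hg : tp g = 1) : g = 1 ∨ g = -1 := by
  have key : ∀ t : ℝ, ∀ ht : 0 < t, (g 0 0 : ℂ) * (t * Complex.I) + g 0 1 = t * Complex.I * (g 1 0 * (t * Complex.I) + g 1 1) := by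
    intro t ht
    have h1 : tp g ⟨t * Complex.I, by simpa using ht⟩ = ⟨t * Complex.I, by simpa using ht⟩ := by rw [hg]; rfl
    have h2 := congrArg (fun z : ℍ => (z : ℂ)) h1
    have h3 := UpperHalfPlane.coe_specialLinearGroup_apply g (⟨t * Complex.I, by simpa using ht⟩ : ℍ)
    have h4 : ((g • (⟨t * Complex.I, by simpa using ht⟩ : ℍ) : ℍ) : ℂ) = t * Complex.I := h2
    rw [h4] at h3
    have h5 : ((algebraMap ℝ ℝ (g 1 0) : ℝ) : ℂ) * (t * Complex.I) + ((algebraMap ℝ ℝ (g 1 1) : ℝ) : ℂ) ≠ 0 := by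
      intro hcon
      have h6 := h3
      have h7 : ((⟨t * Complex.I, by simpa using ht⟩ : ℍ) : ℂ) = t * Complex.I := rfl
      rw [h7, hcon, div_zero] at h6
      have : (t : ℂ) * Complex.I ≠ 0 := mul_ne_zero (by exact_mod_cast ht.ne') Complex.I_ne_zero
      exact this h6
    have h7 : ((⟨t * Complex.I, by simpa using ht⟩ : ℍ) : ℂ) = t * Complex.I := rfl
    rw [h7, eq_div_iff h5] at h3
    simp only [Algebra.algebraMap_self, RingHom.id_apply] at h3
    exact h3.symm
  have k1 := key 1 one_pos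
  have k2 := key 2 two_pos
  have r1 := congrArg Complex.re k1
  have i1 := congrArg Complex.im k1
  have r2 := congrArg Complex.re k2
  have i2 := congrArg Complex.im k2
  simp [Complex.mul_re, Complex.mul_im] at r1 i1 r2 i2
  have hc : g 1 0 = 0 := by linarith
  have hb : g 0 1 = 0 := by linarith
  have had : g 0 0 = g 1 1 := by linarith
  have hdet := g.det_coe
  rw [Matrix.det_fin_two, hc, hb, ← had] at hdet
  have h2 : g 0 0 * g 0 0 = 1 := by linarith
  have h3 : (g 0 0 - 1) * (g 0 0 + 1) = 0 := by linarith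
  rcases mul_eq_zero.1 h3 with h | h
  · left
    apply Matrix.SpecialLinearGroup.ext
    intro i j
    fin_cases i <;> fin_cases j <;> simp [hb, hc] <;> linarith
  · right
    apply Matrix.SpecialLinearGroup.ext
    intro i j
    fin_cases i <;> fin_cases j <;> simp [hb, hc] <;> linarith

theorem pre_fin {S : Set (Equiv.Perm ℍ)} (hS : S.Finite) : ((tp : SL(2, ℝ) → Equiv.Perm ℍ) ⁻¹' S).Finite := by
  refine hS.preimage' fun γ _ => ?_
  by_cases h : ∃ g₀ : SL(2, ℝ), tp g₀ = γ
  · obtain ⟨g₀, rfl⟩ := h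
    refine (Set.toFinite ({g₀, g₀ * (-1)} : Set SL(2, ℝ))).subset ?_
    intro g hg
    have h1 : tp (g₀⁻¹ * g) = 1 := by
      rw [map_mul, map_inv, inv_mul_eq_one]
      exact (Set.mem_singleton_iff.1 hg).symm
    rcases ker_sub _ h1 with h | h
    · left
      have := (inv_mul_eq_iff_eq_mul.1 h)
      rw [this, mul_one]
    · right
      exact (inv_mul_eq_iff_eq_mul.1 h)
  · refine Set.Finite.subset Set.finite_empty ?_
    intro g hg
    exact absurd ⟨g, hg⟩ h

/-- a subgroup with finite displacement sets is discrete -/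
theorem discrete_of {Γ : Subgroup (Equiv.Perm ℍ)} (h : {γ : Equiv.Perm ℍ | γ ∈ Γ ∧ dist I (γ I) ≤ 1}.Finite) :
    DiscreteTopology (Γ.comap tp) := by
  set K := Γ.comap tp with hK
  have hfin := pre_fin h
  have hU : IsOpen {g : SL(2, ℝ) | dist I (g • I) < 1} := by
    have : Continuous fun g : SL(2, ℝ) => dist I (g • I) := by fun_prop
    exact isOpen_lt this continuous_const
  set F : Set SL(2, ℝ) := ((tp : SL(2, ℝ) → Equiv.Perm ℍ) ⁻¹' {γ : Equiv.Perm ℍ | γ ∈ Γ ∧ dist I (γ I) ≤ 1}) \ {1} with hF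
  have hFfin : F.Finite := hfin.subset Set.sdiff_subset
  have hFc : IsOpen Fᶜ := hFfin.isClosed.isOpen_compl
  have hV : IsOpen ({g : SL(2, ℝ) | dist I (g • I) < 1} ∩ Fᶜ) := hU.inter hFc
  apply discreteTopology_of_isOpen_singleton_one
  have h1 : ({1} : Set K) = (Subtype.val : K → SL(2, ℝ)) ⁻¹' ({g : SL(2, ℝ) | dist I (g • I) < 1} ∩ Fᶜ) := by
    ext g
    rw [Set.mem_singleton_iff, Set.mem_preimage]
    constructor
    · rintro rfl
      refine ⟨?_, ?_⟩
      · show dist I ((1 : SL(2, ℝ)) • I) < 1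
        rw [one_smul, dist_self]; exact one_pos
      · intro hcon; exact hcon.2 rfl
    · rintro ⟨h2, h3⟩
      by_contra hne
      apply h3
      refine ⟨⟨g.2, ?_⟩, ?_⟩
      · exact le_of_lt h2
      · intro h4; exact hne (Subtype.ext h4)
  rw [h1]
  exact hV.preimage continuous_subtype_val

/-- the profile -/
noncomputable def prof (lam : ℝ) (t : ℝ) : ℝ := 1 + (lam - 1) * Real.smoothTransition (2 - t)

theorem prof_ge {lam : ℝ} (t : ℝ) : min 1 lam ≤ prof lam t := by
  unfold prof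
  have h0 := Real.smoothTransition.nonneg (2 - t)
  have h1 := Real.smoothTransition.le_one (2 - t)
  rcases le_total 1 lam with h | h
  · rw [min_eq_left h]; nlinarith
  · rw [min_eq_right h]; nlinarith

theorem prof_Prof {lam : ℝ} (hl : 0 < lam) : Prof (prof lam) lam where
  pos := fun t => lt_of_lt_of_le (lt_min one_pos hl) (prof_ge t)
  one := fun t ht => by
    unfold prof
    rw [Real.smoothTransition.zero_of_nonpos (by linarith)]; ring
  eq_lam := fun t ht => by
    unfold prof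
    rw [Real.smoothTransition.one_of_one_le (by linarith)]; ring

theorem prof_smooth (lam : ℝ) : ContDiff ℝ ∞ (prof lam) := by
  unfold prof
  exact contDiff_const.add (contDiff_const.mul (Real.smoothTransition.contDiff.comp (contDiff_const.sub contDiff_id)))

theorem prof_inv_smooth {lam : ℝ} (hl : 0 < lam) : ContDiff ℝ ∞ (fun t => (prof lam t)⁻¹) :=
  (prof_smooth lam).inv fun t => ((prof_Prof hl).pos t).ne'

theorem prof_deriv_bdd {lam : ℝ} (hl : 0 < lam) : ∃ Q, ∀ t, |deriv (prof lam) t| * (1 + t ^ 2) ≤ Q := by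
  have hcont : Continuous fun t => |deriv (prof lam) t| * (1 + t ^ 2) := by
    have h1 : Continuous (deriv (prof lam)) := (prof_smooth lam).continuous_deriv (by simp)
    fun_prop
  obtain ⟨Q, hQ⟩ := (isCompact_Icc (a := (1:ℝ)) (b := 2)).exists_bound_of_continuousOn hcont.continuousOn
  refine ⟨max Q 0, fun t => ?_⟩
  by_cases h1 : t < 1
  · have e : prof lam =ᶠ[𝓝 t] fun _ => lam := by
      filter_upwards [gt_mem_nhds h1] with u hu
      exact (prof_Prof hl).eq_lam u hu.le
    rw [e.deriv_eq, deriv_const, abs_zero, zero_mul]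
    exact le_max_right _ _
  by_cases h2 : 2 < t
  · have e : prof lam =ᶠ[𝓝 t] fun _ => 1 := by
      filter_upwards [lt_mem_nhds h2] with u hu
      exact (prof_Prof hl).one u hu.le
    rw [e.deriv_eq, deriv_const, abs_zero, zero_mul]
    exact le_max_right _ _
  push Not at h1 h2
  have := hQ t ⟨h1, h2⟩
  rw [Real.norm_eq_abs] at this
  exact (le_abs_self _).trans (this.trans (le_max_left _ _))

theorem h0_I (C : Cfg) : C.h 1 one_pos 0 I = I := by
  apply UpperHalfPlane.coe_injective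
  rw [coe_h0]
  show -(((1:ℝ) : ℂ) ^ 2 / Complex.I) = Complex.I
  rw [Complex.ofReal_one, one_pow, one_div, Complex.inv_I, neg_neg]

/-- the orbit of the even subgroup -/
theorem orb_E (C : Cfg) {u : ℂ} (hu : u ∈ Orb C 1 one_pos) : ∃ γ ∈ C.E 1 one_pos, u = (γ I : ℍ) := by
  obtain ⟨γ, hγ, rfl⟩ := hu
  rcases E_or C 1 one_pos γ hγ with h | h
  · exact ⟨γ, h, rfl⟩
  · refine ⟨_, h, ?_⟩
    rw [Equiv.Perm.mul_apply, h0_I]

theorem map_E (C : Cfg) (c : ℝ) (hc : 0 < c) (c' : ℝ) (hc' : 0 < c') (w : Equiv.Perm ℍ)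
    (hw : ∀ j z, w (C.h c hc j z) = C.h c' hc' j (w z)) :
    (C.E c hc).map (MulAut.conj w).toMonoidHom = C.E c' hc' := by
  have hj : ∀ j, w * C.h c hc j * w⁻¹ = C.h c' hc' j := by
    intro j
    rw [mul_inv_eq_iff_eq_mul]
    ext z : 1
    exact hw j z
  unfold Cfg.E
  rw [MonoidHom.map_closure]
  congr 1
  rw [← Set.range_comp]
  congr 1
  funext n
  show w * (C.h c hc 0 * C.h c hc (n+1)) * w⁻¹ = _
  rw [← hj 0, ← hj (n+1)]
  group

theorem E_range (C : Cfg) (c : ℝ) (hc : 0 < c) : C.E c hc ≤ (tp : SL(2, ℝ) →* Equiv.Perm ℍ).range := by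
  unfold Cfg.E
  rw [Subgroup.closure_le]
  rintro _ ⟨n, rfl⟩
  exact mul_mem ⟨mat0 c hc, rfl⟩ ⟨matC (C.x n) (C.ρ n) (C.pos n), rfl⟩

end Pool.Agent.Helper889.QC
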